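import Mathlib

set_option autoImplicit false

namespace Pool.Agent.Work.MP_0fef71_al

open Subgroup

/-- Every subgroup of `G` is generated by at most `r` elements. -/
def RB (G : Type*) [Group G] (r : ℕ) : Prop :=
  ∀ H : Subgroup G, ∃ S : Finset G, S.card ≤ r ∧ closure (S : Set G) = H

theorem RB.mono {G : Type*} [Group G] {r s : ℕ} (h : RB G r) (hrs : r ≤ s) : RB G s := by
  intro H
  obtain ⟨S, hS, hS'⟩ := h H
  exact ⟨S, hS.trans hrs, hS'⟩

theorem RB.count {G : Type*} [Group G] [Finite G] {r : ℕ} (h : RB G r) :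
    Nat.card (Subgroup G) ≤ (Nat.card G) ^ r := by
  classical
  have hsurj : Function.Surjective (fun f : Fin r → G => closure (Set.range f)) := by
    intro H
    obtain ⟨S, hS, hS'⟩ := h H
    let e := S.equivFin
    refine ⟨fun i => if hi : (i : ℕ) < S.card then (e.symm ⟨i, hi⟩ : G) else 1, ?_⟩
    simp only
    rw [← hS']
    apply le_antisymm
    · rw [closure_le]
      rintro _ ⟨i, rfl⟩
      by_cases hi : (i : ℕ) < S.card
      · simp only [hi, dif_pos]
        exact Subgroup.subset_closure (e.symm ⟨i, hi⟩).2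
      · simp only [hi, dif_neg, not_false_iff]
        exact one_mem _
    · rw [closure_le]
      intro x hx
      apply Subgroup.subset_closure
      refine ⟨⟨(e ⟨x, hx⟩ : ℕ), (e ⟨x, hx⟩).2.trans_le hS⟩, ?_⟩
      simp
  have h1 := Nat.card_le_card_of_surjective _ hsurj
  rwa [Nat.card_fun, Nat.card_eq_fintype_card (α := Fin r), Fintype.card_fin] at h1

theorem RB.of_injective {G G' : Type*} [Group G] [Group G'] {r : ℕ} (h : RB G' r) (f : G →* G')
    (hf : Function.Injective f) : RB G r := by
  classical
  intro H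
  obtain ⟨S, hS, hS'⟩ := h (H.map f)
  have hSr : ∀ x ∈ S, ∃ y ∈ H, f y = x := by
    intro x hx
    have : x ∈ H.map f := by rw [← hS']; exact Subgroup.subset_closure hx
    exact this
  choose! g hg hg' using hSr
  refine ⟨S.image g, Finset.card_image_le.trans hS, ?_⟩
  apply map_injective hf
  rw [MonoidHom.map_closure, ← hS']
  congr 1
  ext x
  simp only [Finset.coe_image, Set.mem_image, Finset.mem_coe]
  constructor
  · rintro ⟨_, ⟨y, hy, rfl⟩, rfl⟩
    rw [hg' y hy]; exact hy
  · intro hx
    exact ⟨g x, ⟨x, hx, rfl⟩, hg' x hx⟩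

/-- Rank is subadditive in extensions. -/
theorem RB.ext {G Q : Type*} [Group G] [Group Q] {r s : ℕ} (f : G →* Q) (hQ : RB Q r)
    (hK : RB f.ker s) : RB G (r + s) := by
  classical
  intro H
  obtain ⟨S, hS, hS'⟩ := hQ (H.map f)
  have hSr : ∀ x ∈ S, ∃ y ∈ H, f y = x := by
    intro x hx
    have : x ∈ H.map f := by rw [← hS']; exact Subgroup.subset_closure hx
    exact this
  choose! g hg hg' using hSr
  obtain ⟨T, hT, hT'⟩ := hK (H.subgroupOf f.ker)
  refine ⟨S.image g ∪ T.image Subtype.val, ?_, ?_⟩
  · exact (Finset.card_union_le _ _).trans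
      (Nat.add_le_add (Finset.card_image_le.trans hS) (Finset.card_image_le.trans hT))
  · apply le_antisymm
    · rw [closure_le]
      intro x hx
      rw [Finset.mem_coe, Finset.mem_union, Finset.mem_image, Finset.mem_image] at hx
      rcases hx with ⟨y, hy, rfl⟩ | ⟨y, hy, rfl⟩
      · exact hg y hy
      · have : y ∈ H.subgroupOf f.ker := by rw [← hT']; exact Subgroup.subset_closure hy
        exact this
    · intro x hx
      -- find y in the closure with f y = f x
      have h1 : f x ∈ closure (S : Set Q) := by rw [hS']; exact ⟨x, hx, rfl⟩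
      have h2 : closure (S : Set Q) ≤ (closure ((S.image g ∪ T.image Subtype.val : Finset G) :
          Set G) ⊓ H).map f := by
        rw [closure_le]
        intro z hz
        refine ⟨g z, ⟨Subgroup.subset_closure ?_, hg z hz⟩, hg' z hz⟩
        rw [Finset.mem_coe, Finset.mem_union, Finset.mem_image]
        exact Or.inl ⟨z, hz, rfl⟩
      obtain ⟨y, ⟨hy, hyH⟩, hyx⟩ := h2 h1
      have h3 : y⁻¹ * x ∈ f.ker := by
        rw [MonoidHom.mem_ker, map_mul, map_inv, hyx, inv_mul_cancel]
      have h4 : (⟨y⁻¹ * x, h3⟩ : f.ker) ∈ H.subgroupOf f.ker :=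
        H.mul_mem (H.inv_mem hyH) hx
      have h5 : (closure (T : Set f.ker)).map f.ker.subtype ≤
          closure ((S.image g ∪ T.image Subtype.val : Finset G) : Set G) := by
        rw [MonoidHom.map_closure, closure_le]
        rintro _ ⟨t, ht, rfl⟩
        apply Subgroup.subset_closure
        rw [Finset.mem_coe, Finset.mem_union, Finset.mem_image, Finset.mem_image]
        exact Or.inr ⟨t, ht, rfl⟩
      have h6 : y⁻¹ * x ∈ closure ((S.image g ∪ T.image Subtype.val : Finset G) : Set G) := by
        apply h5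
        exact ⟨⟨y⁻¹ * x, h3⟩, by rw [hT']; exact h4, rfl⟩
      have : x = y * (y⁻¹ * x) := by group
      rw [this]
      exact mul_mem hy h6

theorem RB.pi {m : ℕ} : ∀ {G : Fin m → Type*} [∀ i, Group (G i)] {r : Fin m → ℕ},
    (∀ i, RB (G i) (r i)) → RB (∀ i, G i) (∑ i, r i) := by
  induction m with
  | zero =>
    intro G _ r _ H
    refine ⟨∅, by simp, ?_⟩
    exact Subsingleton.elim _ _
  | succ m ih =>
    intro G _ r h
    rw [Fin.sum_univ_succ]
    let f : (∀ i, G i) →* G 0 := Pi.evalMonoidHom G 0
    refine RB.ext f (h 0) ?_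
    have h1 : RB (∀ i : Fin m, G i.succ) (∑ i : Fin m, r i.succ) := ih (fun i => h i.succ)
    let g : f.ker →* (∀ i : Fin m, G i.succ) :=
      { toFun := fun x i => x.1 i.succ
        map_one' := rfl
        map_mul' := fun _ _ => rfl }
    refine h1.of_injective g ?_
    intro x y hxy
    apply Subtype.ext
    funext i
    refine Fin.cases ?_ (fun j => congrFun hxy j) i
    have hx : x.1 0 = 1 := x.2
    have hy : y.1 0 = 1 := y.2
    rw [hx, hy]

/-- A `p`-element outside a subgroup of finite index increases the order by a factor `p`. -/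
theorem mem_of_index_lt {G : Type*} [Group G] {p : ℕ} (hp : p.Prime) (K : Subgroup G)
    (hK : K.index ≠ 0) (hKp : K.index < p) (y : G) (j : ℕ) (hy : y ^ (p ^ j) ∈ K) : y ∈ K := by
  obtain ⟨n, hn0, hn, hyn⟩ := exists_pow_mem_of_index_ne_zero hK y
  have hcop : Nat.Coprime n (p ^ j) := by
    apply Nat.Coprime.pow_right
    exact (Nat.Prime.coprime_iff_not_dvd hp).2
      (fun h => absurd (Nat.le_of_dvd hn0 h) (by omega)) |>.symm
  have h1 : y ^ ((1 : ℤ)) ∈ K := by
    have hb : (n : ℤ) * Nat.gcdA n (p ^ j) + ((p ^ j : ℕ) : ℤ) * Nat.gcdB n (p ^ j) = 1 := by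
      rw [← Nat.gcd_eq_gcd_ab, hcop]; rfl
    rw [← hb, zpow_add, zpow_mul, zpow_mul, zpow_natCast, zpow_natCast]
    exact K.mul_mem (K.zpow_mem hyn _) (K.zpow_mem hy _)
  simpa using h1

theorem card_closure_insert {G : Type*} [Group G] [Finite G] {p : ℕ} (hp : p.Prime)
    (K K' : Subgroup G) (hKK' : K ≤ K') (y : G) (hyK' : y ∈ K') (hyK : y ∉ K) (j : ℕ)
    (hy : y ^ (p ^ j) = 1) : Nat.card K * p ≤ Nat.card K' := by
  have h1 : K.relIndex K' * Nat.card K = Nat.card K' := by
    have := relIndex_mul_relIndex (⊥ : Subgroup G) K K' bot_le hKK'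
    rw [relIndex_bot_left, relIndex_bot_left] at this
    rw [mul_comm]; exact this
  have h2 : p ≤ K.relIndex K' := by
    by_contra hlt
    push Not at hlt
    apply hyK
    have h3 : (⟨y, hyK'⟩ : K') ∈ K.subgroupOf K' := by
      refine mem_of_index_lt hp (K.subgroupOf K') ?_ hlt ⟨y, hyK'⟩ j ?_
      · exact index_ne_zero_of_finite
      · have : (⟨y, hyK'⟩ : K') ^ (p ^ j) = 1 := Subtype.ext hy
        rw [this]; exact one_mem _
    exact h3
  calc Nat.card K * p ≤ Nat.card K * K.relIndex K' := Nat.mul_le_mul_left _ h2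
    _ = Nat.card K' := by rw [mul_comm]; exact h1

/-- A subgroup generated by `p`-elements is generated by few of them. -/
theorem gens_of_pElements {G : Type*} [Group G] [Finite G] {p : ℕ} (hp : p.Prime)
    (T : Set G) (hT : ∀ y ∈ T, ∃ j, y ^ (p ^ j) = 1) (M : ℕ) (hM : Nat.card G < p ^ M) :
    ∃ S : Finset G, S.card ≤ M ∧ closure (S : Set G) = closure T := by
  classical
  have key : ∀ k : ℕ, (∃ S : Finset G, (S : Set G) ⊆ T ∧ S.card ≤ k ∧
      closure (S : Set G) = closure T) ∨
      (∃ S : Finset G, (S : Set G) ⊆ T ∧ S.card ≤ k ∧ p ^ k ≤ Nat.card (closure (S : Set G))) := by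
    intro k
    induction k with
    | zero =>
      right
      exact ⟨∅, by simp, by simp, by rw [pow_zero]; exact Nat.card_pos⟩
    | succ k ih =>
      rcases ih with ⟨S, h1, h2, h3⟩ | ⟨S, h1, h2, h3⟩
      · left
        exact ⟨S, h1, h2.trans (Nat.le_succ k), h3⟩
      · by_cases heq : closure (S : Set G) = closure T
        · left
          exact ⟨S, h1, h2.trans (Nat.le_succ k), heq⟩
        · right
          have : ∃ y ∈ T, y ∉ closure (S : Set G) := by
            by_contra hcon
            push Not at hcon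
            exact heq (le_antisymm (closure_mono h1) ((closure_le _).2 hcon))
          obtain ⟨y, hyT, hy⟩ := this
          refine ⟨insert y S, ?_, ?_, ?_⟩
          · rw [Finset.coe_insert]
            exact Set.insert_subset hyT h1
          · exact (Finset.card_insert_le _ _).trans (Nat.succ_le_succ h2)
          · obtain ⟨j, hj⟩ := hT y hyT
            have h4 := card_closure_insert hp (closure (S : Set G))
              (closure ((insert y S : Finset G) : Set G))
              (closure_mono (by rw [Finset.coe_insert]; exact Set.subset_insert _ _)) y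
              (Subgroup.subset_closure (by simp)) hy j hj
            calc p ^ (k + 1) = p ^ k * p := pow_succ _ _
              _ ≤ Nat.card (closure (S : Set G)) * p := Nat.mul_le_mul_right _ h3
              _ ≤ _ := h4
  rcases key M with ⟨S, _, h2, h3⟩ | ⟨S, _, _, h3⟩
  · exact ⟨S, h2, h3⟩
  · exfalso
    have : Nat.card (closure (S : Set G)) ≤ Nat.card G :=
      Nat.card_le_card_of_injective _ Subtype.val_injective
    omega

/-- Rank bound from the orders and the `p'`-subgroups. -/
theorem RB_of_coprime {G : Type*} [Group G] [Finite G] (p : ℕ) [hp : Fact p.Prime] (M r : ℕ)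
    (hM : Nat.card G < p ^ M)
    (hC : ∀ C : Subgroup G, (Nat.card C).Coprime p →
      ∃ S : Finset C, S.card ≤ r ∧ closure (S : Set C) = ⊤) : RB G (M + r) := by
  classical
  intro H
  -- the subgroup generated by p-elements
  let T : Set H := {y | ∃ j, y ^ (p ^ j) = 1}
  have hcardH : Nat.card H < p ^ M :=
    (Nat.card_le_card_of_injective _ H.subtype_injective).trans_lt hM
  obtain ⟨S1, hS1, hS1'⟩ := gens_of_pElements hp.out T (fun y hy => hy) M hcardH
  have hTn : (closure T).Normal := by
    refine ⟨fun n hn g => ?_⟩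
    have h1 : closure T ≤ (closure T).comap (MulAut.conj g).toMonoidHom := by
      rw [closure_le]
      rintro y ⟨j, hj⟩
      change g * y * g⁻¹ ∈ closure T
      apply Subgroup.subset_closure
      exact ⟨j, by rw [conj_pow, hj]; group⟩
    exact h1 hn
  obtain ⟨P⟩ : Nonempty (Sylow p H) := inferInstance
  have hPT : (P : Subgroup H) ≤ closure T := by
    intro y hy
    apply Subgroup.subset_closure
    obtain ⟨j, hj⟩ := P.isPGroup' ⟨y, hy⟩
    exact ⟨j, congrArg Subtype.val hj⟩
  have hfr := Sylow.normalizer_sup_eq_top' P hPT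
  set Nz : Subgroup H := normalizer (P : Set H) with hNz
  have hPN : (P : Subgroup H) ≤ Nz := le_normalizer
  let P' : Subgroup Nz := (P : Subgroup H).subgroupOf Nz
  have hP'n : P'.Normal := normal_in_normalizer
  have hidx : P'.index * Nz.index = (P : Subgroup H).index := relIndex_mul_index hPN
  have hP'idx : ¬ p ∣ P'.index := by
    intro h
    apply P.not_dvd_index
    rw [← hidx]
    exact Dvd.dvd.mul_right h _
  have hcop : (Nat.card P').Coprime P'.index := by
    have h1 : IsPGroup p P' := P.2.comap_subtype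
    obtain ⟨k, hk⟩ := IsPGroup.iff_card.1 h1
    rw [hk]
    exact Nat.Coprime.pow_left _ ((Nat.Prime.coprime_iff_not_dvd hp.out).2 hP'idx)
  obtain ⟨C, hC'⟩ := exists_right_complement'_of_coprime hcop
  have hCcard : Nat.card C = P'.index := by
    exact (hC'.symm.index_eq_card).symm
  -- C as a subgroup of G
  let C1 : Subgroup H := C.map Nz.subtype
  let C2 : Subgroup G := C1.map H.subtype
  have hC2card : Nat.card C2 = Nat.card C := by
    have e1 : C ≃* C1 := C.equivMapOfInjective _ Nz.subtype_injective
    have e2 : C1 ≃* C2 := C1.equivMapOfInjective _ H.subtype_injective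
    exact Nat.card_congr (e1.trans e2).symm.toEquiv
  obtain ⟨S2, hS2, hS2'⟩ := hC C2 (by
    rw [hC2card, hCcard]
    exact ((Nat.Prime.coprime_iff_not_dvd hp.out).2 hP'idx).symm)
  have hS2cl : closure ((S2.image Subtype.val : Finset G) : Set G) = C2 := by
    have h1 : (closure (S2 : Set C2)).map C2.subtype = C2 := by
      rw [hS2', ← MonoidHom.range_eq_map, range_subtype]
    rw [MonoidHom.map_closure] at h1
    rw [Finset.coe_image]
    exact h1
  have hS1cl : closure ((S1.image Subtype.val : Finset G) : Set G) =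
      (closure T).map H.subtype := by
    rw [← hS1', MonoidHom.map_closure, Finset.coe_image]
    rfl
  refine ⟨S1.image Subtype.val ∪ S2.image Subtype.val, ?_, ?_⟩
  · exact (Finset.card_union_le _ _).trans
      (Nat.add_le_add (Finset.card_image_le.trans hS1) (Finset.card_image_le.trans hS2))
  · rw [Finset.coe_union, Subgroup.closure_union, hS1cl, hS2cl, ← Subgroup.map_sup]
    have htop : closure T ⊔ C1 = ⊤ := by
      rw [eq_top_iff, ← hfr]
      refine sup_le ?_ le_sup_left
      have h1 : Nz = (P' ⊔ C).map Nz.subtype := by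
        rw [hC'.sup_eq_top, ← MonoidHom.range_eq_map, range_subtype]
      rw [h1, Subgroup.map_sup]
      refine sup_le_sup ?_ le_rfl
      intro y hy
      obtain ⟨z, hz, rfl⟩ := hy
      exact hPT hz
    rw [htop, ← MonoidHom.range_eq_map, range_subtype]

end Pool.Agent.Work.MP_0fef71_al
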