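import Mathlib
import Pool.Agent.Work.MP_0fef71_al.GroupGen

set_option autoImplicit false

namespace Pool.Agent.Work.MP_0fef71_al

open Matrix
open scoped commutatorElement

section E
variable {B : Type*} [Ring B]

theorem E_aux {b c : Fin 3} (h : b ≠ c) (r s : B) :
    (1 + single b c r) * (1 + single b c s) =
      (1 + single b c (r + s) : Matrix (Fin 3) (Fin 3) B) := by
  have h0 : single b c r * single b c s = (0 : Matrix (Fin 3) (Fin 3) B) :=
    single_mul_single_of_ne r b c b h.symm s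
  rw [mul_add, add_mul, add_mul, h0, single_add]
  simp only [mul_one, one_mul, add_zero]
  abel

/-- Elementary matrices. -/
def E (b c : Fin 3) (h : b ≠ c) (r : B) : (Matrix (Fin 3) (Fin 3) B)ˣ where
  val := 1 + single b c r
  inv := 1 + single b c (-r)
  val_inv := by rw [E_aux h, add_neg_cancel, single_zero, add_zero]
  inv_val := by rw [E_aux h, neg_add_cancel, single_zero, add_zero]

theorem E_val (b c : Fin 3) (h : b ≠ c) (r : B) :
    (E b c h r : Matrix (Fin 3) (Fin 3) B) = 1 + single b c r := rfl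

theorem E_inv_val (b c : Fin 3) (h : b ≠ c) (r : B) :
    ((E b c h r)⁻¹ : (Matrix (Fin 3) (Fin 3) B)ˣ).val = 1 + single b c (-r) := rfl

theorem E_add (b c : Fin 3) (h : b ≠ c) (r s : B) : E b c h (r + s) = E b c h r * E b c h s := by
  apply Units.ext
  rw [Units.val_mul, E_val, E_val, E_val, E_aux h]

theorem E_zero (b c : Fin 3) (h : b ≠ c) : E b c h (0 : B) = 1 := by
  apply Units.ext
  rw [E_val, single_zero, add_zero, Units.val_one]

theorem E_neg (b c : Fin 3) (h : b ≠ c) (r : B) : E b c h (-r) = (E b c h r)⁻¹ := by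
  rw [eq_inv_iff_mul_eq_one, ← E_add, neg_add_cancel, E_zero]

theorem E_comm (a b c : Fin 3) (hab : a ≠ b) (hac : a ≠ c) (hcb : c ≠ b) (r s : B) :
    E a b hab (r * s) = ⁅E a c hac r, E c b hcb s⁆ := by
  apply Units.ext
  rw [commutatorElement_def, Units.val_mul, Units.val_mul, Units.val_mul, E_inv_val, E_inv_val,
    E_val, E_val, E_val]
  have h1 : single a c r * single c b s = (single a b (r * s) : Matrix (Fin 3) (Fin 3) B) :=
    single_mul_single_same _ _ _ _ _
  have h1' : single a c r * single c b (-s) = (single a b (-(r * s)) : Matrix (Fin 3) (Fin 3) B) := by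
    rw [single_mul_single_same, mul_neg]
  have h2 : ∀ x y : B, single c b x * single a c y = (0 : Matrix (Fin 3) (Fin 3) B) :=
    fun x y => single_mul_single_of_ne x c b a hab.symm y
  have h3 : ∀ x y : B, single a c x * single a c y = (0 : Matrix (Fin 3) (Fin 3) B) :=
    fun x y => single_mul_single_of_ne x a c a hac.symm y
  have h4 : ∀ x y : B, single c b x * single c b y = (0 : Matrix (Fin 3) (Fin 3) B) :=
    fun x y => single_mul_single_of_ne x c b c hcb.symm y
  have h5 : ∀ x y : B, single a b x * single a c y = (0 : Matrix (Fin 3) (Fin 3) B) :=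
    fun x y => single_mul_single_of_ne x a b a hab.symm y
  have h6 : ∀ x y : B, single a b x * single c b y = (0 : Matrix (Fin 3) (Fin 3) B) :=
    fun x y => single_mul_single_of_ne x a b c hcb.symm y
  have e1 : (1 + single a c r) * (1 + single c b s) =
      (1 + single a c r + single c b s + single a b (r * s) : Matrix (Fin 3) (Fin 3) B) := by
    rw [mul_add, mul_one, add_mul, one_mul, h1]; abel
  have e2 : (1 + single a c r + single c b s + single a b (r * s)) * (1 + single a c (-r)) =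
      (1 + single c b s + single a b (r * s) : Matrix (Fin 3) (Fin 3) B) := by
    rw [mul_add, mul_one, add_mul, add_mul, add_mul, one_mul, h2, h3, h5]
    have : (single a c (-r) : Matrix (Fin 3) (Fin 3) B) = - single a c r := by
      rw [single_neg]
    rw [this]; abel
  have e3 : (1 + single c b s + single a b (r * s)) * (1 + single c b (-s)) =
      (1 + single a b (r * s) : Matrix (Fin 3) (Fin 3) B) := by
    rw [mul_add, mul_one, add_mul, add_mul, one_mul, h4, h6]
    have : (single c b (-s) : Matrix (Fin 3) (Fin 3) B) = - single c b s := by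
      rw [single_neg]
    rw [this]; abel
  rw [e1, e2, e3]

end E

/-! ### Elementary subgroups of a product -/

section Prod

variable {A : ℕ → Type} [∀ i, Ring (A i)]

/-- Elementary elements of the product. -/
def EE (b c : Fin 3) (h : b ≠ c) (r : ∀ i, A i) : ∀ i, (Matrix (Fin 3) (Fin 3) (A i))ˣ :=
  fun i => E b c h (r i)

theorem EE_add (b c : Fin 3) (h : b ≠ c) (r s : ∀ i, A i) :
    EE b c h (r + s) = EE b c h r * EE b c h s := by
  funext i; exact E_add b c h (r i) (s i)

theorem EE_zero (b c : Fin 3) (h : b ≠ c) : EE b c h (0 : ∀ i, A i) = 1 := by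
  funext i; exact E_zero b c h

theorem EE_neg (b c : Fin 3) (h : b ≠ c) (r : ∀ i, A i) :
    EE b c h (-r) = (EE b c h r)⁻¹ := by
  funext i; exact E_neg b c h (r i)

theorem EE_comm (a b c : Fin 3) (hab : a ≠ b) (hac : a ≠ c) (hcb : c ≠ b) (r s : ∀ i, A i) :
    EE a b hab (r * s) = ⁅EE a c hac r, EE c b hcb s⁆ := by
  funext i; exact E_comm a b c hab hac hcb (r i) (s i)

theorem exists_third (a b : Fin 3) : ∃ c, a ≠ c ∧ c ≠ b := by
  revert a b; decide

variable (X : Set (∀ i, A i))

/-- The group generated by the elementary matrices with parameters in `X`. -/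
def Gam : Subgroup (∀ i, (Matrix (Fin 3) (Fin 3) (A i))ˣ) :=
  Subgroup.closure {g | ∃ (b c : Fin 3) (h : b ≠ c) (x : ∀ i, A i), x ∈ X ∧ g = EE b c h x}

/-- The ring of parameters of the elementary matrices in `Gam X`. -/
def RR' (h1 : (1 : ∀ i, A i) ∈ X) : Subring (∀ i, A i) where
  carrier := {r | ∀ (b c : Fin 3) (h : b ≠ c), EE b c h r ∈ Gam X}
  mul_mem' := by
    intro r s hr hs b c h
    obtain ⟨k, hk1, hk2⟩ := exists_third b c
    rw [EE_comm b c k h hk1 hk2 r s, commutatorElement_def]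
    exact mul_mem (mul_mem (mul_mem (hr _ _ _) (hs _ _ _)) (inv_mem (hr _ _ _)))
      (inv_mem (hs _ _ _))
  one_mem' := fun b c h => Subgroup.subset_closure ⟨b, c, h, 1, h1, rfl⟩
  add_mem' := by
    intro r s hr hs b c h
    rw [EE_add]; exact mul_mem (hr _ _ _) (hs _ _ _)
  zero_mem' := by
    intro b c h
    rw [EE_zero]; exact one_mem _
  neg_mem' := by
    intro r hr b c h
    rw [EE_neg]; exact inv_mem (hr _ _ _)

theorem mem_RR'_of_mem (h1 : (1 : ∀ i, A i) ∈ X) {x : ∀ i, A i} (hx : x ∈ X) : x ∈ RR' X h1 :=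
  fun b c h => Subgroup.subset_closure ⟨b, c, h, x, hx, rfl⟩

/-- Elements of `Gam X` have entries in the ring. -/
theorem entries_mem (h1 : (1 : ∀ i, A i) ∈ X) (g : ∀ i, (Matrix (Fin 3) (Fin 3) (A i))ˣ)
    (hg : g ∈ Gam X) (b c : Fin 3) :
    (fun i => ((g i : (Matrix (Fin 3) (Fin 3) (A i))ˣ) : Matrix (Fin 3) (Fin 3) (A i)) b c) ∈
      RR' X h1 := by
  have key : ∀ g : ∀ i, (Matrix (Fin 3) (Fin 3) (A i))ˣ, g ∈ Gam X → ∀ b c : Fin 3,
      ((fun i => ((g i : (Matrix (Fin 3) (Fin 3) (A i))ˣ) : Matrix (Fin 3) (Fin 3) (A i)) b c) ∈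
      RR' X h1) := by
    have hE : ∀ (b c : Fin 3) (h : b ≠ c) (x : ∀ i, A i), x ∈ RR' X h1 → ∀ b' c' : Fin 3,
      ((fun i => ((EE b c h x i : (Matrix (Fin 3) (Fin 3) (A i))ˣ) :
        Matrix (Fin 3) (Fin 3) (A i)) b' c') ∈ RR' X h1) := by
      intro b c h x hx b' c'
      have : (fun i => ((EE b c h x i : (Matrix (Fin 3) (Fin 3) (A i))ˣ) :
        Matrix (Fin 3) (Fin 3) (A i)) b' c') =
          (if b' = c' then (1 : ∀ i, A i) else 0) + (if b = b' ∧ c = c' then x else 0) := by
        funext i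
        have e1 : ((EE b c h x i : (Matrix (Fin 3) (Fin 3) (A i))ˣ) :
          Matrix (Fin 3) (Fin 3) (A i)) = 1 + single b c (x i) := rfl
        rw [e1, Matrix.add_apply, Pi.add_apply, Matrix.one_apply, Matrix.single_apply]
        split_ifs <;> rfl
      rw [this]
      refine add_mem ?_ ?_
      · split_ifs
        · exact one_mem _
        · exact zero_mem _
      · split_ifs
        · exact hx
        · exact zero_mem _
    intro g hg
    induction hg using Subgroup.closure_induction'' with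
    | mem x hx =>
      obtain ⟨b, c, h, y, hy, rfl⟩ := hx
      exact hE b c h y (mem_RR'_of_mem X h1 hy)
    | inv_mem x hx =>
      obtain ⟨b, c, h, y, hy, rfl⟩ := hx
      rw [← EE_neg]
      exact hE b c h (-y) (neg_mem (mem_RR'_of_mem X h1 hy))
    | one =>
      intro b c
      have : (fun i => (((1 : ∀ i, (Matrix (Fin 3) (Fin 3) (A i))ˣ) i :
        (Matrix (Fin 3) (Fin 3) (A i))ˣ) : Matrix (Fin 3) (Fin 3) (A i)) b c) =
          (if b = c then (1 : ∀ i, A i) else 0) := by
        funext i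
        rw [Pi.one_apply, Units.val_one, Matrix.one_apply]
        split_ifs <;> rfl
      rw [this]
      split_ifs
      · exact one_mem _
      · exact zero_mem _
    | mul x y _ _ hx hy =>
      intro b c
      have : (fun i => (((x * y : ∀ i, (Matrix (Fin 3) (Fin 3) (A i))ˣ) i :
        (Matrix (Fin 3) (Fin 3) (A i))ˣ) : Matrix (Fin 3) (Fin 3) (A i)) b c) =
          ∑ k : Fin 3, (fun i => ((x i : (Matrix (Fin 3) (Fin 3) (A i))ˣ) :
            Matrix (Fin 3) (Fin 3) (A i)) b k) * (fun i => ((y i : (Matrix (Fin 3) (Fin 3) (A i))ˣ) :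
            Matrix (Fin 3) (Fin 3) (A i)) k c) := by
        funext i
        rw [Pi.mul_apply, Units.val_mul, Matrix.mul_apply, Finset.sum_apply]
        rfl
      rw [this]
      exact sum_mem fun k _ => mul_mem (hx b k) (hy k c)
  exact key g hg b c

/-- Elementary elements as elements of the group. -/
def EG (h1 : (1 : ∀ i, A i) ∈ X) (b c : Fin 3) (h : b ≠ c) (r : RR' X h1) : Gam X :=
  ⟨EE b c h r.1, r.2 b c h⟩

variable (h1 : (1 : ∀ i, A i) ∈ X)

theorem EG_add (b c : Fin 3) (h : b ≠ c) (r s : RR' X h1) :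
    EG X h1 b c h (r + s) = EG X h1 b c h r * EG X h1 b c h s :=
  Subtype.ext (EE_add b c h _ _)

theorem EG_zero (b c : Fin 3) (h : b ≠ c) :
    EG X h1 b c h 0 = 1 :=
  Subtype.ext (EE_zero b c h)

theorem EG_neg (b c : Fin 3) (h : b ≠ c) (r : RR' X h1) :
    EG X h1 b c h (-r) = (EG X h1 b c h r)⁻¹ :=
  Subtype.ext (EE_neg b c h _)

theorem EG_comm (a b c : Fin 3) (hab : a ≠ b) (hac : a ≠ c) (hcb : c ≠ b) (r s : RR' X h1) :
    EG X h1 a b hab (r * s) = ⁅EG X h1 a c hac r, EG X h1 c b hcb s⁆ :=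
  Subtype.ext (EE_comm a b c hab hac hcb _ _)

theorem EG_nsmul (b c : Fin 3) (h : b ≠ c) (r : RR' X h1) (n : ℕ) :
    EG X h1 b c h (n • r) = (EG X h1 b c h r) ^ n := by
  induction n with
  | zero => rw [zero_smul, pow_zero, EG_zero]
  | succ n ih => rw [succ_nsmul, EG_add, ih, pow_succ]

/-- The ideal attached to a normal subgroup. -/
def II (N : Subgroup (Gam X)) : Set (RR' X h1) :=
  {r | ∀ (b c : Fin 3) (h : b ≠ c), EG X h1 b c h r ∈ N}

variable {X h1} {N : Subgroup (Gam X)}

theorem II_zero : (0 : RR' X h1) ∈ II X h1 N := by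
  intro b c h; rw [EG_zero]; exact one_mem _

theorem II_add {r s : RR' X h1} (hr : r ∈ II X h1 N) (hs : s ∈ II X h1 N) :
    r + s ∈ II X h1 N := by
  intro b c h; rw [EG_add]; exact mul_mem (hr _ _ _) (hs _ _ _)

theorem II_neg {r : RR' X h1} (hr : r ∈ II X h1 N) : -r ∈ II X h1 N := by
  intro b c h; rw [EG_neg]; exact inv_mem (hr _ _ _)

theorem II_sub {r s : RR' X h1} (hr : r ∈ II X h1 N) (hs : s ∈ II X h1 N) :
    r - s ∈ II X h1 N := by
  rw [sub_eq_add_neg]; exact II_add hr (II_neg hs)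

theorem II_mul_left [hN : N.Normal] (r : RR' X h1) {s : RR' X h1} (hs : s ∈ II X h1 N) :
    r * s ∈ II X h1 N := by
  intro b c h
  obtain ⟨k, hk1, hk2⟩ := exists_third b c
  rw [EG_comm X h1 b c k h hk1 hk2 r s, commutatorElement_def]
  exact mul_mem (hN.conj_mem _ (hs _ _ _) _) (inv_mem (hs _ _ _))

theorem II_mul_right [hN : N.Normal] {r : RR' X h1} (hr : r ∈ II X h1 N) (s : RR' X h1) :
    r * s ∈ II X h1 N := by
  intro b c h
  obtain ⟨k, hk1, hk2⟩ := exists_third b c
  rw [EG_comm X h1 b c k h hk1 hk2 r s, commutatorElement_def, mul_assoc, mul_assoc]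
  refine mul_mem (hr _ _ _) ?_
  rw [← mul_assoc]
  exact hN.conj_mem _ (inv_mem (hr _ _ _)) _

/-- Pigeonhole. -/
theorem II_pigeonhole [N.FiniteIndex] (f : ℕ → RR' X h1) :
    ∃ k l : ℕ, k < l ∧ f l - f k ∈ II X h1 N := by
  classical
  let F : ℕ → ({bc : Fin 3 × Fin 3 // bc.1 ≠ bc.2} → Gam X ⧸ N) :=
    fun k bc => (EG X h1 bc.1.1 bc.1.2 bc.2 (f k) : Gam X ⧸ N)
  obtain ⟨k, l, hkl, hF⟩ := Finite.exists_ne_map_eq_of_infinite F
  have main : ∀ k l, F k = F l → f l - f k ∈ II X h1 N := by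
    intro k l hF b c h
    have := congrFun hF ⟨(b, c), h⟩
    have h2 : (EG X h1 b c h (f k))⁻¹ * EG X h1 b c h (f l) ∈ N := QuotientGroup.eq.1 this
    rw [← EG_neg, ← EG_add, neg_add_eq_sub] at h2
    exact h2
  rcases lt_or_gt_of_ne hkl with h | h
  · exact ⟨k, l, h, main k l hF⟩
  · exact ⟨l, k, h, main l k hF.symm⟩

end Prod

end Pool.Agent.Work.MP_0fef71_al
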