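import Mathlib

set_option autoImplicit false

namespace Pool.Agent.Work.MP_0fef71_al

open Matrix

/-- The period-doubling sequences. -/
def tog : ℕ → ℤ → ℤ
  | 0, _ => 0
  | i + 1, x => if x % 2 = 1 then 0 else 1 - tog i (x / 2)

theorem tog_periodic (i : ℕ) : ∀ x k : ℤ, tog i (x + 2 ^ i * k) = tog i x := by
  induction i with
  | zero => intro x k; rfl
  | succ i ih =>
    intro x k
    have h1 : (x + 2 ^ (i + 1) * k) % 2 = x % 2 := by
      have : x + 2 ^ (i + 1) * k = x + 2 * (2 ^ i * k) := by ring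
      rw [this, Int.add_mul_emod_self_left]
    have h2 : (x + 2 ^ (i + 1) * k) / 2 = x / 2 + 2 ^ i * k := by
      have : x + 2 ^ (i + 1) * k = x + 2 * (2 ^ i * k) := by ring
      rw [this, Int.add_mul_ediv_left _ _ (by norm_num)]
    simp only [tog]
    rw [h1, h2, ih]

theorem tog_val : ∀ (a i : ℕ) (k : ℤ), a ≤ i → tog i (2 ^ a * (2 * k + 1)) = ((a % 2 : ℕ) : ℤ) := by
  intro a
  induction a with
  | zero =>
    intro i k _
    cases i with
    | zero => rfl
    | succ i =>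
      simp only [tog, pow_zero, one_mul]
      rw [if_pos (by omega)]
      rfl
  | succ a ih =>
    intro i k hi
    cases i with
    | zero => omega
    | succ i =>
      have e : (2 : ℤ) ^ (a + 1) * (2 * k + 1) = 2 * (2 ^ a * (2 * k + 1)) := by ring
      simp only [tog]
      rw [e, if_neg (by rw [Int.mul_emod_right]; norm_num),
        Int.mul_ediv_cancel_left _ (by norm_num : (2 : ℤ) ≠ 0), ih i k (by omega)]
      omega

/-- differences -/
def dtog (i : ℕ) (N : ℤ) (x : ℤ) : ℤ := tog i (x - N) - tog i x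

theorem dtog_zero (i : ℕ) (a : ℕ) (N : ℤ) (hN : (2 : ℤ) ^ a ∣ N) (h : i ≤ a) (x : ℤ) :
    dtog i N x = 0 := by
  obtain ⟨q, rfl⟩ := hN
  obtain ⟨b, rfl⟩ := Nat.exists_eq_add_of_le h
  have : x - 2 ^ (i + b) * q = x + 2 ^ i * (-(2 ^ b * q)) := by ring
  rw [dtog, this, tog_periodic, sub_self]

theorem dtog_window (i a : ℕ) (m : ℤ) (h : a < i) (x : ℤ) :
    ∃ j : ℕ, j < 2 ^ (a + 2) ∧ (dtog i (2 ^ a * (2 * m + 1)) (x - j)) ^ 2 = 1 := by
  set N : ℤ := 2 ^ a * (2 * m + 1) with hN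
  set w : ℤ := x - N - 2 ^ (a + 1) with hw
  have hpos : (0 : ℤ) < 2 ^ (a + 2) := by positivity
  have hj0 : 0 ≤ w % 2 ^ (a + 2) := Int.emod_nonneg _ hpos.ne'
  have hj1 : w % 2 ^ (a + 2) < 2 ^ (a + 2) := Int.emod_lt_of_pos _ hpos
  obtain ⟨j, hj⟩ := Int.eq_ofNat_of_zero_le hj0
  have hdiv := Int.emod_add_mul_ediv w (2 ^ (a + 2))
  set q := w / 2 ^ (a + 2) with hq
  rw [hj] at hdiv hj1
  refine ⟨j, by exact_mod_cast hj1, ?_⟩
  have e1 : x - j - N = 2 ^ (a + 1) * (2 * q + 1) := by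
    have : x - N - 2 ^ (a + 1) = j + 2 ^ (a + 2) * q := by rw [← hw]; exact hdiv.symm
    have h2 : (2 : ℤ) ^ (a + 2) = 2 ^ (a + 1) * 2 := by ring
    linear_combination this + q * h2
  have e2 : x - j = 2 ^ a * (2 * (m + 2 * q + 1) + 1) := by
    have h2 : (2 : ℤ) ^ (a + 1) = 2 ^ a * 2 := by ring
    have : x - j = N + 2 ^ (a + 1) * (2 * q + 1) := by linarith
    rw [this, hN, h2]; ring
  rw [dtog, e1, e2, tog_val _ _ _ (by omega), tog_val _ _ _ (by omega)]
  rcases Nat.mod_two_eq_zero_or_one a with h0 | h0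
  · have h1 : (a + 1) % 2 = 1 := by omega
    rw [h0, h1]; norm_num
  · have h1 : (a + 1) % 2 = 0 := by omega
    rw [h0, h1]; norm_num

variable (P : ℕ → ℕ)

/-- The matrix rings. -/
abbrev AA (i : ℕ) : Type := Matrix (ZMod (2 ^ i)) (ZMod (2 ^ i)) (ZMod (P i))

/-- Shift matrices. -/
def Sh (i : ℕ) (N : ℤ) : AA P i := Matrix.of fun x y => if x = y + (N : ZMod (2 ^ i)) then 1 else 0

theorem Sh_mul_apply (i : ℕ) (N : ℤ) (M : AA P i) (x y : ZMod (2 ^ i)) :
    (Sh P i N * M) x y = M (x - N) y := by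
  rw [Matrix.mul_apply, Finset.sum_eq_single (x - (N : ZMod (2 ^ i)))]
  · rw [Sh, Matrix.of_apply, if_pos (by ring), one_mul]
  · intro b _ hb
    rw [Sh, Matrix.of_apply, if_neg, zero_mul]
    intro h
    apply hb
    rw [h]; ring
  · intro h; exact absurd (Finset.mem_univ _) h

theorem mul_Sh_apply (i : ℕ) (N : ℤ) (M : AA P i) (x y : ZMod (2 ^ i)) :
    (M * Sh P i N) x y = M x (y + N) := by
  rw [Matrix.mul_apply, Finset.sum_eq_single (y + (N : ZMod (2 ^ i)))]
  · rw [Sh, Matrix.of_apply, if_pos rfl, mul_one]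
  · intro b _ hb
    rw [Sh, Matrix.of_apply, if_neg hb, mul_zero]
  · intro h; exact absurd (Finset.mem_univ _) h

theorem Sh_zero (i : ℕ) : Sh P i 0 = 1 := by
  ext x y
  rw [Sh, Matrix.of_apply, Int.cast_zero, add_zero, Matrix.one_apply]

theorem Sh_add (i : ℕ) (N M : ℤ) : Sh P i (N + M) = Sh P i N * Sh P i M := by
  ext x y
  rw [Sh_mul_apply, Sh, Sh, Matrix.of_apply, Matrix.of_apply, Int.cast_add]
  congr 1
  apply propext
  constructor
  · intro h; rw [h]; ring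
  · intro h
    have : x = (x - N) + N := by ring
    rw [this, h]; ring

theorem Sh_conj_diagonal (i : ℕ) (N : ℤ) (f : ZMod (2 ^ i) → ZMod (P i)) :
    Sh P i N * diagonal f * Sh P i (-N) = diagonal (fun x => f (x - N)) := by
  ext x y
  rw [mul_Sh_apply, Sh_mul_apply, Matrix.diagonal_apply, Matrix.diagonal_apply]
  have : (x - (N : ZMod (2 ^ i)) = y + ((-N : ℤ) : ZMod (2 ^ i))) ↔ x = y := by
    rw [Int.cast_neg, ← sub_eq_add_neg]
    exact sub_left_inj
  simp only [this]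

/-- The function on `ZMod (2^i)` given by `tog`. -/
def tz (i : ℕ) (x : ZMod (2 ^ i)) : ZMod (P i) := ((tog i (x.val : ℤ) : ℤ) : ZMod (P i))

theorem tz_intCast (i : ℕ) (x : ℤ) : tz P i (x : ZMod (2 ^ i)) = ((tog i x : ℤ) : ZMod (P i)) := by
  have h : (((x : ZMod (2 ^ i)).val : ℕ) : ℤ) = x % ((2 ^ i : ℕ) : ℤ) := ZMod.val_intCast x
  have h2 : x % ((2 ^ i : ℕ) : ℤ) = x + 2 ^ i * (-(x / (2 ^ i))) := by
    have := Int.emod_add_mul_ediv x ((2 ^ i : ℕ) : ℤ)
    push_cast at this ⊢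
    linarith
  rw [tz, h, h2, tog_periodic]

/-- The diagonal generator. -/
def Dm (i : ℕ) : AA P i := diagonal (tz P i)

theorem exists_int (i : ℕ) (x : ZMod (2 ^ i)) : ∃ z : ℤ, (z : ZMod (2 ^ i)) = x :=
  ⟨x.val, by rw [Int.cast_natCast, ZMod.natCast_val, ZMod.cast_id', id]⟩

/-- shift in the product -/
def SS (N : ℤ) : ∀ i, AA P i := fun i => Sh P i N

/-- diagonal in the product -/
def DD : ∀ i, AA P i := fun i => Dm P i

theorem SS_zero : SS P 0 = 1 := by funext i; exact Sh_zero P i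

theorem SS_add (N M : ℤ) : SS P (N + M) = SS P N * SS P M := by funext i; exact Sh_add P i N M

/-- The element `δ_N`. -/
def dl (N : ℤ) : ∀ i, AA P i := SS P N * DD P * SS P (-N) - DD P

/-- The product `W`. -/
def WW (N : ℤ) : ℕ → ∀ i, AA P i
  | 0 => 1
  | k + 1 => WW N k * (1 - SS P k * (dl P N * dl P N) * SS P (-k))

/-- The idempotents. -/
def ee (a : ℕ) : ∀ i, AA P i := fun i => if i ≤ a then 1 else 0

theorem dl_apply (N : ℤ) (i : ℕ) :
    dl P N i = diagonal (fun x => tz P i (x - N) - tz P i x) := by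
  have : dl P N i = Sh P i N * Dm P i * Sh P i (-N) - Dm P i := rfl
  rw [this, Dm, Sh_conj_diagonal, ← Matrix.diagonal_sub]

theorem WW_apply (N : ℤ) (k : ℕ) (i : ℕ) :
    WW P N k i = diagonal (fun x => ∏ j ∈ Finset.range k,
      (1 - (tz P i (x - (j : ℤ) - N) - tz P i (x - (j : ℤ))) ^ 2)) := by
  induction k with
  | zero =>
    have : WW P N 0 i = 1 := rfl
    rw [this, ← Matrix.diagonal_one]
    congr 1
  | succ k ih =>
    have : WW P N (k + 1) i = WW P N k i *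
        (1 - Sh P i k * (dl P N i * dl P N i) * Sh P i (-k)) := rfl
    rw [this, ih, dl_apply, Matrix.diagonal_mul_diagonal, Sh_conj_diagonal, ← Matrix.diagonal_one,
      Matrix.diagonal_sub, Matrix.diagonal_mul_diagonal]
    congr 1
    funext x
    rw [Finset.prod_range_succ, sq]

theorem WW_eq (a : ℕ) (m : ℤ) : WW P (2 ^ a * (2 * m + 1)) (2 ^ (a + 2)) = ee P a := by
  set N : ℤ := 2 ^ a * (2 * m + 1) with hN
  have hdt : ∀ (i : ℕ) (x : ℤ), tz P i ((x : ZMod (2 ^ i)) - (N : ZMod (2 ^ i))) -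
      tz P i (x : ZMod (2 ^ i)) = ((dtog i N x : ℤ) : ZMod (P i)) := by
    intro i x
    rw [← Int.cast_sub, tz_intCast, tz_intCast, dtog, Int.cast_sub]
  funext i
  rw [WW_apply, ee]
  by_cases hi : i ≤ a
  · rw [if_pos hi, ← Matrix.diagonal_one]
    congr 1
    funext x
    apply Finset.prod_eq_one
    intro j _
    obtain ⟨z, hz⟩ := exists_int i (x - ((j : ℤ) : ZMod (2 ^ i)))
    rw [← hz, hdt, dtog_zero i a N ⟨_, hN⟩ hi]
    simp
  · rw [if_neg hi, ← Matrix.diagonal_zero]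
    congr 1
    funext x
    obtain ⟨z, hz⟩ := exists_int i x
    obtain ⟨j, hj, hj2⟩ := dtog_window i a m (not_le.1 hi) z
    apply Finset.prod_eq_zero (Finset.mem_range.2 hj)
    rw [← hz, ← Int.cast_sub, hdt, ← Int.cast_pow, hj2]
    simp

end Pool.Agent.Work.MP_0fef71_al
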