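import Mathlib
import Pool.Agent.Work.MP_0fef71_al.Elem
import Pool.Agent.Work.MP_0fef71_al.Shift

set_option autoImplicit false

namespace Pool.Agent.Work.MP_0fef71_al

open Matrix

variable (P : ℕ → ℕ)

/-- The four parameters. -/
def XX : Set (∀ i, AA P i) := {1, SS P 1, SS P (-1), DD P}

theorem one_mem_XX : (1 : ∀ i, AA P i) ∈ XX P := Or.inl rfl

/-- The group. -/
abbrev GG : Subgroup (∀ i, (Matrix (Fin 3) (Fin 3) (AA P i))ˣ) := Gam (XX P)

/-- The ring. -/
abbrev Rg : Subring (∀ i, AA P i) := RR' (XX P) (one_mem_XX P)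

theorem GG_fg : Group.FG (GG P) := by
  have hf : (XX P).Finite := by
    unfold XX
    exact Set.toFinite _
  have : {g | ∃ (b c : Fin 3) (h : b ≠ c) (x : ∀ i, AA P i), x ∈ XX P ∧ g = EE b c h x} ⊆
      ⋃ bc : {bc : Fin 3 × Fin 3 // bc.1 ≠ bc.2}, (fun x => EE bc.1.1 bc.1.2 bc.2 x) '' (XX P) := by
    rintro g ⟨b, c, h, x, hx, rfl⟩
    exact Set.mem_iUnion.2 ⟨⟨(b, c), h⟩, x, hx, rfl⟩
  have hfin : Set.Finite {g | ∃ (b c : Fin 3) (h : b ≠ c) (x : ∀ i, AA P i),
      x ∈ XX P ∧ g = EE b c h x} :=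
    (Set.finite_iUnion fun bc => hf.image _).subset this
  have := hfin.to_subtype
  exact Group.closure_finite_fg _

theorem SS_mem (N : ℤ) : SS P N ∈ Rg P := by
  have h1 : SS P 1 ∈ Rg P := mem_RR'_of_mem _ _ (Or.inr (Or.inl rfl))
  have h2 : SS P (-1) ∈ Rg P := mem_RR'_of_mem _ _ (Or.inr (Or.inr (Or.inl rfl)))
  have h3 : ∀ n : ℕ, SS P n ∈ Rg P := by
    intro n
    induction n with
    | zero => rw [Nat.cast_zero, SS_zero]; exact one_mem _
    | succ n ih => rw [Nat.cast_succ, SS_add]; exact mul_mem ih h1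
  have h4 : ∀ n : ℕ, SS P (-n) ∈ Rg P := by
    intro n
    induction n with
    | zero => rw [Nat.cast_zero, neg_zero, SS_zero]; exact one_mem _
    | succ n ih => rw [Nat.cast_succ, neg_add, SS_add]; exact mul_mem ih h2
  obtain ⟨n, rfl | rfl⟩ := N.eq_nat_or_neg
  · exact h3 n
  · exact h4 n

theorem DD_mem : DD P ∈ Rg P := mem_RR'_of_mem _ _ (Or.inr (Or.inr (Or.inr rfl)))

theorem dl_mem (N : ℤ) : dl P N ∈ Rg P :=
  sub_mem (mul_mem (mul_mem (SS_mem P N) (DD_mem P)) (SS_mem P (-N))) (DD_mem P)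

theorem WW_mem (N : ℤ) (k : ℕ) : WW P N k ∈ Rg P := by
  induction k with
  | zero => exact one_mem _
  | succ k ih =>
    exact mul_mem ih (sub_mem (one_mem _) (mul_mem (mul_mem (SS_mem P k)
      (mul_mem (dl_mem P N) (dl_mem P N))) (SS_mem P (-k))))

theorem ee_mem (a : ℕ) : ee P a ∈ Rg P := by
  rw [← WW_eq P a 0]; exact WW_mem P _ _

/-- bundled versions -/
def sR (N : ℤ) : Rg P := ⟨SS P N, SS_mem P N⟩

def eR (a : ℕ) : Rg P := ⟨ee P a, ee_mem P a⟩

theorem sR_add (N M : ℤ) : sR P (N + M) = sR P N * sR P M := Subtype.ext (SS_add P N M)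

theorem sR_zero : sR P 0 = 1 := Subtype.ext (SS_zero P)

theorem exists_level (N : Subgroup (GG P)) [N.Normal] [N.FiniteIndex] :
    ∃ a, 1 - eR P a ∈ II (XX P) (one_mem_XX P) N := by
  obtain ⟨k, l, hkl, hI⟩ := II_pigeonhole (X := XX P) (h1 := one_mem_XX P) (N := N)
    (fun k => sR P k)
  obtain ⟨M, rfl⟩ := Nat.exists_eq_add_of_lt hkl
  have hM : sR P ((M + 1 : ℕ) : ℤ) - 1 ∈ II (XX P) (one_mem_XX P) N := by
    have h := II_mul_right hI (sR P (-k))
    have e : (sR P ((k + M + 1 : ℕ) : ℤ) - sR P (k : ℤ)) * sR P (-k) =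
        sR P ((M + 1 : ℕ) : ℤ) - 1 := by
      rw [sub_mul, ← sR_add, ← sR_add, add_neg_cancel, sR_zero]
      congr 2
      push_cast; ring
    rwa [e] at h
  obtain ⟨a, m, hm, hMm⟩ := Nat.exists_eq_two_pow_mul_odd (n := M + 1) (by omega)
  obtain ⟨q, rfl⟩ := hm
  refine ⟨a, ?_⟩
  set N0 : ℤ := 2 ^ a * (2 * (q : ℤ) + 1) with hN0
  have hN0' : ((M + 1 : ℕ) : ℤ) = N0 := by rw [hMm, hN0]; push_cast; ring
  rw [hN0'] at hM
  have hM' : sR P (-N0) - 1 ∈ II (XX P) (one_mem_XX P) N := by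
    have h := II_neg (II_mul_left (sR P (-N0)) hM)
    have e : -(sR P (-N0) * (sR P N0 - 1)) = sR P (-N0) - 1 := by
      rw [mul_sub, ← sR_add, neg_add_cancel, sR_zero, mul_one, neg_sub]
    rwa [e] at h
  have hdl : (⟨dl P N0, dl_mem P N0⟩ : Rg P) ∈ II (XX P) (one_mem_XX P) N := by
    let dR : Rg P := ⟨DD P, DD_mem P⟩
    have h1 := II_mul_right (II_mul_right hM dR) (sR P (-N0))
    have h2 := II_mul_left dR hM'
    have h3 := II_add h1 h2
    have e : (sR P N0 - 1) * dR * sR P (-N0) + dR * (sR P (-N0) - 1) =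
        (⟨dl P N0, dl_mem P N0⟩ : Rg P) := by
      have : (⟨dl P N0, dl_mem P N0⟩ : Rg P) = sR P N0 * dR * sR P (-N0) - dR := rfl
      rw [this, sub_mul, sub_mul, mul_sub, one_mul, mul_one]
      abel
    rwa [e] at h3
  have hW : ∀ k : ℕ, 1 - (⟨WW P N0 k, WW_mem P N0 k⟩ : Rg P) ∈ II (XX P) (one_mem_XX P) N := by
    intro k
    induction k with
    | zero =>
      have : (⟨WW P N0 0, WW_mem P N0 0⟩ : Rg P) = 1 := rfl
      rw [this, sub_self]; exact II_zero
    | succ k ih =>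
      let d0 : Rg P := ⟨dl P N0, dl_mem P N0⟩
      let w0 : Rg P := ⟨WW P N0 k, WW_mem P N0 k⟩
      have e : (⟨WW P N0 (k + 1), WW_mem P N0 (k + 1)⟩ : Rg P) =
        w0 * (1 - sR P k * (d0 * d0) * sR P (-k)) := rfl
      have h1 : w0 * (sR P k * (d0 * d0) * sR P (-k)) ∈ II (XX P) (one_mem_XX P) N :=
        II_mul_left w0 (II_mul_right (II_mul_left (sR P k) (II_mul_left d0 hdl)) (sR P (-k)))
      have h2 := II_add ih h1
      have e2 : 1 - w0 + w0 * (sR P k * (d0 * d0) * sR P (-k)) =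
          1 - w0 * (1 - sR P k * (d0 * d0) * sR P (-k)) := by
        rw [mul_sub, mul_one]; abel
      rw [e2] at h2
      rw [e]
      exact h2
  have h := hW (2 ^ (a + 2))
  have e : (⟨WW P N0 (2 ^ (a + 2)), WW_mem P N0 _⟩ : Rg P) = eR P a := Subtype.ext (WW_eq P a q)
  rwa [e] at h

theorem eR_mul_le {a m : ℕ} (h : a ≤ m) : (1 - eR P m) = (1 - eR P m) * (1 - eR P a) := by
  apply Subtype.ext
  funext i
  have e : ((1 - eR P m : Rg P) : ∀ i, AA P i) i = 1 - (if i ≤ m then 1 else 0) := rfl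
  have e2 : (((1 - eR P m) * (1 - eR P a) : Rg P) : ∀ i, AA P i) i =
      (1 - (if i ≤ m then 1 else 0)) * (1 - (if i ≤ a then 1 else 0)) := rfl
  rw [e, e2]
  by_cases hm : i ≤ m
  · rw [if_pos hm, sub_self, zero_mul]
  · rw [if_neg hm, if_neg (by omega), sub_zero, mul_one]

theorem eR_step (a : ℕ) (r : Rg P) : (P (a + 1)) • ((eR P (a + 1) - eR P a) * r) = 0 := by
  apply Subtype.ext
  funext i
  have e : (((P (a + 1)) • ((eR P (a + 1) - eR P a) * r) : Rg P) : ∀ i, AA P i) i =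
      (P (a + 1)) • (((if i ≤ a + 1 then 1 else 0) - (if i ≤ a then 1 else 0)) *
        (r : ∀ i, AA P i) i) := rfl
  rw [e]
  by_cases h1 : i ≤ a
  · rw [if_pos h1, if_pos (by omega), sub_self, zero_mul, smul_zero]; rfl
  · by_cases h2 : i = a + 1
    · subst h2
      rw [nsmul_eq_mul]
      have : ((P (a + 1) : ℕ) : AA P (a + 1)) = 0 := by
        have h0 : ((P (a + 1) : ℕ) : ZMod (P (a + 1))) = 0 := ZMod.natCast_self _
        rw [← Matrix.diagonal_natCast]
        rw [h0]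
        exact Matrix.diagonal_zero
      rw [this, zero_mul]; rfl
    · rw [if_neg h1, if_neg (by omega), sub_self, zero_mul, smul_zero]; rfl

theorem tail_mem [∀ i, Fact (P i).Prime] (K : Subgroup (GG P)) (hK : K.index ≠ 0) (m : ℕ)
    (hm : ∀ j, m < j → K.index < P j) (b c : Fin 3) (h : b ≠ c) (r : Rg P) :
    EG (XX P) (one_mem_XX P) b c h ((1 - eR P m) * r) ∈ K := by
  have : K.FiniteIndex := ⟨hK⟩
  obtain ⟨a, ha⟩ := exists_level P K.normalCore
  have ha' : ∀ r : Rg P, EG (XX P) (one_mem_XX P) b c h ((1 - eR P a) * r) ∈ K := fun r =>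
    K.normalCore_le (II_mul_right ha r b c h)
  rcases le_total a m with ham | hma
  · rw [eR_mul_le P ham, mul_assoc]
    exact K.normalCore_le (II_mul_left _ (II_mul_right ha r) b c h)
  · -- descend from a to m
    have key : ∀ d : ℕ, (∀ r : Rg P, EG (XX P) (one_mem_XX P) b c h
        ((1 - eR P (m + d)) * r) ∈ K) → ∀ r : Rg P, EG (XX P) (one_mem_XX P) b c h
        ((1 - eR P m) * r) ∈ K := by
      intro d
      induction d with
      | zero => intro h; exact h
      | succ d ih =>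
        intro hd
        apply ih
        intro r
        have e : (1 - eR P (m + d)) * r = (1 - eR P (m + (d + 1))) * r +
            (eR P (m + d + 1) - eR P (m + d)) * r := by
          have : m + (d + 1) = m + d + 1 := rfl
          rw [this, ← add_mul]; congr 1; abel
        rw [e, EG_add]
        refine mul_mem (hd r) ?_
        have hpr : (P (m + d + 1)).Prime := Fact.out
        refine mem_of_index_lt hpr K hK (hm _ (by omega)) _ 1 ?_
        rw [pow_one, ← EG_nsmul, eR_step, EG_zero]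
        exact one_mem _
    obtain ⟨d, rfl⟩ := Nat.exists_eq_add_of_le hma
    exact key d ha' r

/-- Truncation. -/
def theta (m : ℕ) : (∀ i, (Matrix (Fin 3) (Fin 3) (AA P i))ˣ) →*
    (∀ i, (Matrix (Fin 3) (Fin 3) (AA P i))ˣ) where
  toFun g i := if i ≤ m then 1 else g i
  map_one' := by funext i; simp
  map_mul' x y := by
    funext i
    simp only [Pi.mul_apply]
    split_ifs <;> simp

theorem theta_EE (m : ℕ) (b c : Fin 3) (h : b ≠ c) (r : ∀ i, AA P i) :
    theta P m (EE b c h r) = EE b c h ((1 - ee P m) * r) := by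
  funext i
  have e : theta P m (EE b c h r) i = if i ≤ m then 1 else EE b c h r i := rfl
  rw [e]
  by_cases hi : i ≤ m
  · rw [if_pos hi]
    have : ((1 - ee P m) * r) i = 0 := by
      have : ((1 - ee P m) * r) i = (1 - (if i ≤ m then 1 else 0)) * r i := rfl
      rw [this, if_pos hi, sub_self, zero_mul]
    rw [EE, this, E_zero]
  · rw [if_neg hi]
    have : ((1 - ee P m) * r) i = r i := by
      have : ((1 - ee P m) * r) i = (1 - (if i ≤ m then 1 else 0)) * r i := rfl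
      rw [this, if_neg hi, sub_zero, one_mul]
    rw [EE, EE, this]

theorem mem_of_trivial [∀ i, Fact (P i).Prime] (K : Subgroup (GG P)) (hK : K.index ≠ 0) (m : ℕ)
    (hm : ∀ j, m < j → K.index < P j) (g : GG P) (hg : ∀ i ≤ m, g.1 i = 1) : g ∈ K := by
  have h1 : GG P ≤ (K.map (GG P).subtype).comap (theta P m) := by
    unfold GG Gam
    rw [Subgroup.closure_le]
    rintro _ ⟨b, c, h, x, hx, rfl⟩
    have hxR : x ∈ Rg P := mem_RR'_of_mem _ _ hx
    refine ⟨EG (XX P) (one_mem_XX P) b c h ((1 - eR P m) * ⟨x, hxR⟩),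
      tail_mem P K hK m hm b c h _, ?_⟩
    rw [theta_EE]
    rfl
  have h2 := h1 g.2
  have h3 : theta P m g.1 = g.1 := by
    funext i
    have e : theta P m g.1 i = if i ≤ m then 1 else g.1 i := rfl
    rw [e]
    by_cases hi : i ≤ m
    · rw [if_pos hi, hg i hi]
    · rw [if_neg hi]
  rw [Subgroup.mem_comap, h3] at h2
  obtain ⟨k, hk, hk2⟩ := h2
  have : k = g := Subtype.ext hk2
  rwa [← this]

end Pool.Agent.Work.MP_0fef71_al
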