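import Mathlib

set_option autoImplicit false

namespace Pool.Agent.Work.MP_0fef71_al

/-- A surjection of finite groups with kernel of order coprime to the order of the image has a
section. -/
theorem section_of_coprime {P Q : Type*} [Group P] [Group Q] [Finite P] (f : P →* Q)
    (hf : Function.Surjective f) (h : (Nat.card f.ker).Coprime (Nat.card Q)) :
    ∃ s : Q →* P, ∀ q, f (s q) = q := by
  have hidx : f.ker.index = Nat.card Q := by
    rw [Subgroup.index_ker, MonoidHom.range_eq_top.2 hf]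
    exact Subgroup.card_top
  obtain ⟨K, hK⟩ := Subgroup.exists_right_complement'_of_coprime (N := f.ker) (by rwa [hidx])
  let g : K →* Q := f.comp K.subtype
  have hinj : Function.Injective g := by
    rw [injective_iff_map_eq_one]
    intro x hx
    have h1 : (x : P) ∈ f.ker ⊓ K := ⟨hx, x.2⟩
    rw [hK.disjoint.eq_bot, Subgroup.mem_bot] at h1
    exact Subtype.ext h1
  have hsurj : Function.Surjective g := by
    intro q
    obtain ⟨p, rfl⟩ := hf q
    have hp : p ∈ f.ker ⊔ K := by rw [hK.sup_eq_top]; exact Subgroup.mem_top p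
    obtain ⟨y, hy, z, hz, rfl⟩ := Subgroup.mem_sup_of_normal_left.1 hp
    refine ⟨⟨z, hz⟩, ?_⟩
    have : f y = 1 := hy
    simp [g, this]
  let e : K ≃* Q := MulEquiv.ofBijective g ⟨hinj, hsurj⟩
  refine ⟨K.subtype.comp e.symm.toMonoidHom, fun q => ?_⟩
  exact e.apply_symm_apply q

section

variable {n : Type*} [Fintype n] [DecidableEq n] (p : ℕ) [hp : Fact p.Prime]

/-- Reduction of matrices modulo `p`. -/
def redM (k : ℕ) : Matrix n n (ZMod (p ^ (k + 1))) →+* Matrix n n (ZMod p) :=
  (ZMod.castHom (dvd_pow_self p (Nat.succ_ne_zero k)) (ZMod p)).mapMatrix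

theorem red_eq_zero (k : ℕ) (a : ZMod (p ^ (k + 1)))
    (h : ZMod.castHom (dvd_pow_self p (Nat.succ_ne_zero k)) (ZMod p) a = 0) :
    ∃ b, a = (p : ZMod (p ^ (k + 1))) * b := by
  have : NeZero (p ^ (k + 1)) := ⟨pow_ne_zero _ hp.out.ne_zero⟩
  obtain ⟨m, rfl⟩ := ZMod.natCast_zmod_surjective a
  rw [map_natCast, ZMod.natCast_eq_zero_iff] at h
  obtain ⟨c, rfl⟩ := h
  exact ⟨(c : ZMod (p ^ (k + 1))), by push_cast; ring⟩

theorem red_isUnit (k : ℕ) (a : ZMod (p ^ (k + 1)))
    (h : ZMod.castHom (dvd_pow_self p (Nat.succ_ne_zero k)) (ZMod p) a ≠ 0) :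
    IsUnit a := by
  have : NeZero (p ^ (k + 1)) := ⟨pow_ne_zero _ hp.out.ne_zero⟩
  obtain ⟨m, rfl⟩ := ZMod.natCast_zmod_surjective a
  rw [map_natCast, Ne, ZMod.natCast_eq_zero_iff] at h
  rw [ZMod.isUnit_iff_coprime]
  exact (Nat.Coprime.pow_left _ ((Nat.Prime.coprime_iff_not_dvd hp.out).2 h)).symm

theorem redM_eq_zero (k : ℕ) (X : Matrix n n (ZMod (p ^ (k + 1)))) (h : redM p k X = 0) :
    ∃ Y : Matrix n n (ZMod (p ^ (k + 1))), X = (p : ZMod (p ^ (k + 1))) • Y := by
  have h1 : ∀ i j, ∃ b, X i j = (p : ZMod (p ^ (k + 1))) * b := by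
    intro i j
    apply red_eq_zero
    exact congrFun (congrFun h i) j
  choose Y hY using h1
  exact ⟨Matrix.of Y, by ext i j; exact hY i j⟩

theorem redM_surjective (k : ℕ) : Function.Surjective (redM (n := n) p k) := by
  intro Y
  have h1 : ∀ i j, ∃ b, ZMod.castHom (dvd_pow_self p (Nat.succ_ne_zero k)) (ZMod p) b = Y i j := by
    intro i j
    exact ZMod.castHom_surjective _ _
  choose X hX using h1
  exact ⟨Matrix.of X, by ext i j; exact hX i j⟩

theorem redM_pow (k : ℕ) (x : Matrix n n (ZMod (p ^ (k + 1)))) (h : redM p k x = 1) (j : ℕ) :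
    ∃ Y : Matrix n n (ZMod (p ^ (k + 1))),
      x ^ (p ^ j) - 1 = ((p : ZMod (p ^ (k + 1))) ^ (j + 1)) • Y := by
  induction j with
  | zero =>
    obtain ⟨Y, hY⟩ := redM_eq_zero p k (x - 1) (by rw [map_sub, h, map_one, sub_self])
    exact ⟨Y, by rw [pow_zero, pow_one, hY, zero_add, pow_one]⟩
  | succ j ih =>
    obtain ⟨Y, hY⟩ := ih
    set y := x ^ (p ^ j) with hy
    have hry : redM p k y = 1 := by rw [hy, map_pow, h, one_pow]
    obtain ⟨Z, hZ⟩ := redM_eq_zero p k (∑ i ∈ Finset.range p, y ^ i) (by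
      rw [map_sum]
      simp only [map_pow, hry, one_pow, Finset.sum_const, Finset.card_range]
      ext i j
      simp)
    refine ⟨Z * Y, ?_⟩
    have e : x ^ (p ^ (j + 1)) = y ^ p := by
      rw [hy, ← pow_mul]
      exact congrArg (fun t => x ^ t) (pow_succ p j)
    rw [e, ← geom_sum_mul, hZ, hY, Matrix.smul_mul, Matrix.mul_smul, smul_smul]
    congr 1
    exact (pow_succ' (p : ZMod (p ^ (k + 1))) (j + 1)).symm

/-- Reduction on unit groups. -/
def redU (k : ℕ) : (Matrix n n (ZMod (p ^ (k + 1))))ˣ →* (Matrix n n (ZMod p))ˣ :=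
  Units.map (redM p k).toMonoidHom

theorem redU_coe (k : ℕ) (x : (Matrix n n (ZMod (p ^ (k + 1))))ˣ) :
    ((redU p k x : (Matrix n n (ZMod p))ˣ) : Matrix n n (ZMod p)) = redM p k x := rfl

theorem redU_ker_isPGroup (k : ℕ) : IsPGroup p (redU (n := n) p k).ker := by
  intro g
  refine ⟨p ^ (k + 1) |>.succ, ?_⟩
  have h : redM p k ((g : (Matrix n n (ZMod (p ^ (k + 1))))ˣ) : Matrix n n _) = 1 := by
    have := congrArg Units.val g.2
    exact this
  obtain ⟨Y, hY⟩ := redM_pow p k _ h (p ^ (k + 1) |>.succ)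
  have hz : ((p : ZMod (p ^ (k + 1))) ^ ((p ^ (k + 1)).succ + 1)) = 0 := by
    have h1 : ((p : ZMod (p ^ (k + 1))) ^ (k + 1)) = 0 := by
      have := ZMod.natCast_self (p ^ (k + 1))
      rwa [Nat.cast_pow] at this
    have h2 : k + 1 ≤ (p ^ (k + 1)).succ + 1 := by
      have := Nat.lt_pow_self (n := k + 1) hp.out.one_lt
      omega
    exact pow_eq_zero_of_le h2 h1
  rw [hz, zero_smul, sub_eq_zero] at hY
  apply Subtype.ext
  apply Units.ext
  simpa using hY

theorem redU_surjective (k : ℕ) : Function.Surjective (redU (n := n) p k) := by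
  intro u
  obtain ⟨M, hM⟩ := redM_surjective (n := n) p k (u : Matrix n n (ZMod p))
  have hdet : IsUnit M.det := by
    apply red_isUnit p k
    have h1 : ZMod.castHom (dvd_pow_self p (Nat.succ_ne_zero k)) (ZMod p) M.det =
        (redM p k M).det := RingHom.map_det _ _
    rw [h1, hM]
    exact ((Matrix.isUnit_iff_isUnit_det _).1 u.isUnit).ne_zero
  have hu : IsUnit M := (Matrix.isUnit_iff_isUnit_det _).2 hdet
  refine ⟨hu.unit, ?_⟩
  apply Units.ext
  exact hM

/-- Lifting a representation of a group of order prime to `p` modulo a power of `p`. -/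
theorem exists_lift (k : ℕ) {C : Type*} [Group C] [Finite C] (hC : (Nat.card C).Coprime p)
    (ρ : C →* (Matrix n n (ZMod p))ˣ) (hρ : Function.Injective ρ) :
    ∃ ρ' : C →* (Matrix n n (ZMod (p ^ (k + 1))))ˣ, ∀ c, redU p k (ρ' c) = ρ c := by
  have : NeZero (p ^ (k + 1)) := ⟨pow_ne_zero _ hp.out.ne_zero⟩
  let R := ρ.range
  let f : R.comap (redU (n := n) p k) →* R := (redU (n := n) p k).subgroupComap R
  have hf : Function.Surjective f := (redU (n := n) p k).subgroupComap_surjective_of_surjective R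
    (redU_surjective p k)
  have hker : IsPGroup p f.ker := by
    let g : f.ker →* (redU (n := n) p k).ker :=
      ((R.comap (redU (n := n) p k)).subtype.comp f.ker.subtype).codRestrict _ (by
        intro x
        have := congrArg Subtype.val x.2
        exact this)
    refine (redU_ker_isPGroup (n := n) p k).of_injective g ?_
    intro x y h
    have := congrArg Subtype.val h
    exact Subtype.ext (Subtype.ext this)
  have hfin : Finite (Matrix n n (ZMod (p ^ (k + 1)))) := by
    have : Fintype (ZMod (p ^ (k + 1))) := inferInstance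
    infer_instance
  have hfinU : Finite (Matrix n n (ZMod (p ^ (k + 1))))ˣ := inferInstance
  obtain ⟨m, hm⟩ := (IsPGroup.iff_card (p := p) (G := f.ker)).1 hker
  have hcard : Nat.card R = Nat.card C := Nat.card_congr (MonoidHom.ofInjective hρ).toEquiv.symm
  obtain ⟨s, hs⟩ := section_of_coprime f hf (by
    rw [hm, hcard]
    exact Nat.Coprime.pow_left _ hC.symm)
  refine ⟨((R.comap (redU (n := n) p k)).subtype.comp s).comp ρ.rangeRestrict, fun c => ?_⟩
  have := congrArg Subtype.val (hs (ρ.rangeRestrict c))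
  exact this

end

end Pool.Agent.Work.MP_0fef71_al
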