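import Mathlib

set_option autoImplicit false

namespace Pool.Agent.Work.MP_0fef71_al

open Module

theorem separated_aux {E : Type*} [NormedAddCommGroup E] [NormedSpace ℝ E] {v w : E}
    (hv : 0 < ‖v‖) (hvw : ‖v‖ ≤ ‖w‖) (h : ‖w‖ ≤ ‖w - v‖) :
    1 ≤ ‖(‖w‖)⁻¹ • w - (‖v‖)⁻¹ • v‖ := by
  have hw : 0 < ‖w‖ := hv.trans_le hvw
  set t : ℝ := ‖v‖ / ‖w‖ with ht
  have ht0 : 0 < t := div_pos hv hw
  have ht1 : t ≤ 1 := (div_le_one hw).2 hvw
  set w' : E := (‖w‖)⁻¹ • w with hw'
  set v' : E := (‖v‖)⁻¹ • v with hv'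
  have e1 : w' - t • v' = (‖w‖)⁻¹ • (w - v) := by
    rw [hw', hv', smul_smul, smul_sub]
    congr 2
    rw [ht]
    field_simp
  have n1 : 1 ≤ ‖w' - t • v'‖ := by
    rw [e1, norm_smul, norm_inv, norm_norm]
    rw [inv_mul_eq_div, le_div_iff₀ hw, one_mul]
    exact h
  have nw : ‖w'‖ = 1 := by
    rw [hw', norm_smul, norm_inv, norm_norm, inv_mul_cancel₀ hw.ne']
  have e2 : w' - t • v' = (1 - t) • w' + t • (w' - v') := by
    rw [sub_smul, one_smul, smul_sub]; abel
  have n2 : ‖w' - t • v'‖ ≤ (1 - t) + t * ‖w' - v'‖ := by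
    rw [e2]
    refine (norm_add_le _ _).trans ?_
    rw [norm_smul (1 - t) w', norm_smul t (w' - v'), nw,
      Real.norm_of_nonneg (show (0 : ℝ) ≤ 1 - t by linarith), Real.norm_of_nonneg ht0.le]
    linarith
  have n3 : t ≤ t * ‖w' - v'‖ := by linarith
  have : t * 1 ≤ t * ‖w' - v'‖ := by linarith
  exact le_of_mul_le_mul_left this ht0

/-- Short basis argument: a finite group with a left invariant metric induced by a finite
dimensional normed space has a generating set of bounded size. -/
theorem short_basis {C : Type*} [Group C] [Finite C] {E : Type*} [NormedAddCommGroup E]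
    [NormedSpace ℝ E] [FiniteDimensional ℝ E] (φ : C → E) (hφ : Function.Injective φ)
    (hinv : ∀ c a b, ‖φ (c * a) - φ (c * b)‖ = ‖φ a - φ b‖) :
    ∃ S : Finset C, S.card ≤ 5 ^ finrank ℝ E ∧ Subgroup.closure (S : Set C) = ⊤ := by
  classical
  have := Fintype.ofFinite C
  obtain ⟨n, ⟨idx⟩⟩ := Finite.exists_equiv_fin C
  let ℓ : C → ℝ := fun a => ‖φ a - φ 1‖
  let key : C → ℝ ×ₗ Fin n := fun a => toLex (ℓ a, idx a)
  have key_inj : Function.Injective key := by
    intro a b h
    have h1 := congrArg (fun z : ℝ ×ₗ Fin n => (ofLex z).2) h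
    exact idx.injective h1
  have key_le : ∀ a b, key a < key b → ℓ a ≤ ℓ b := by
    intro a b h
    rw [Prod.Lex.toLex_lt_toLex] at h
    rcases h with h | h
    · exact h.le
    · exact h.1.le
  let S : Finset C := Finset.univ.filter (fun a => a ∉ Subgroup.closure {b | key b < key a})
  have hS : ∀ a, a ∈ S ↔ a ∉ Subgroup.closure {b | key b < key a} := by
    intro a; simp [S]
  have hpos : ∀ a ∈ S, 0 < ℓ a := by
    intro a ha
    have ha1 : a ≠ 1 := by
      rintro rfl
      exact (hS 1).1 ha (Subgroup.one_mem _)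
    have : φ a - φ 1 ≠ 0 := sub_ne_zero.2 (fun h => ha1 (hφ h))
    exact norm_pos_iff.2 this
  have hsep : ∀ a ∈ S, ∀ b ∈ S, key a < key b →
      1 ≤ ‖(‖φ b - φ 1‖)⁻¹ • (φ b - φ 1) - (‖φ a - φ 1‖)⁻¹ • (φ a - φ 1)‖ := by
    intro a ha b hb hab
    refine separated_aux (hpos a ha) (key_le a b hab) ?_
    have h1 : φ b - φ 1 - (φ a - φ 1) = φ b - φ a := by abel
    rw [h1]
    have h2 : ‖φ b - φ a‖ = ℓ (a⁻¹ * b) := by
      have := hinv a (a⁻¹ * b) 1
      rw [mul_inv_cancel_left, mul_one] at this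
      exact this
    rw [h2]
    have h3 : ¬ key (a⁻¹ * b) < key b := by
      intro hlt
      apply (hS b).1 hb
      have e : b = a * (a⁻¹ * b) := by group
      rw [e]
      refine Subgroup.mul_mem _ (Subgroup.subset_closure ?_) (Subgroup.subset_closure ?_)
      · rw [← e]; exact hab
      · rw [← e]; exact hlt
    rcases lt_or_eq_of_le (not_lt.1 h3) with h4 | h4
    · exact key_le _ _ h4
    · have := key_inj h4
      rw [← this]
  let u : C → E := fun a => (‖φ a - φ 1‖)⁻¹ • (φ a - φ 1)
  have hu : ∀ a ∈ S, ∀ b ∈ S, a ≠ b → 1 ≤ ‖u a - u b‖ := by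
    intro a ha b hb hab
    rcases lt_trichotomy (key a) (key b) with h | h | h
    · rw [norm_sub_rev]; exact hsep a ha b hb h
    · exact absurd (key_inj h) hab
    · exact hsep b hb a ha h
  have huinj : Set.InjOn u S := by
    intro a ha b hb h
    by_contra hab
    have := hu a ha b hb hab
    rw [h, sub_self, norm_zero] at this
    linarith
  refine ⟨S, ?_, ?_⟩
  · have h1 : (S.image u).card ≤ 5 ^ finrank ℝ E := by
      apply Besicovitch.card_le_of_separated
      · intro c hc
        obtain ⟨a, ha, rfl⟩ := Finset.mem_image.1 hc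
        have : ‖u a‖ = 1 := by
          change ‖(‖φ a - φ 1‖)⁻¹ • (φ a - φ 1)‖ = 1
          rw [norm_smul, norm_inv, norm_norm, inv_mul_cancel₀ (hpos a ha).ne']
        rw [this]; norm_num
      · intro c hc d hd hcd
        obtain ⟨a, ha, rfl⟩ := Finset.mem_image.1 hc
        obtain ⟨b, hb, rfl⟩ := Finset.mem_image.1 hd
        exact hu a ha b hb (fun h => hcd (by rw [h]))
    rwa [Finset.card_image_of_injOn huinj] at h1
  · -- generation
    rw [eq_top_iff]
    intro a _
    have key' : ∀ a, a ∈ Subgroup.closure (S : Set C) := by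
      have hwf : WellFounded (fun a b : C => key a < key b) := by
        have : IsTrans C (fun a b : C => key a < key b) := ⟨fun a b c h1 h2 => lt_trans h1 h2⟩
        have : Std.Irrefl (fun a b : C => key a < key b) := ⟨fun a h => lt_irrefl _ h⟩
        exact Finite.wellFounded_of_trans_of_irrefl _
      intro a
      induction a using hwf.induction with
      | _ a ih =>
        by_cases ha : a ∈ S
        · exact Subgroup.subset_closure ha
        · rw [hS, not_not] at ha
          refine (Subgroup.closure_le _).2 ?_ ha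
          intro b hb
          exact ih b hb
    exact key' a

end Pool.Agent.Work.MP_0fef71_al
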