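import Mathlib
import Pool.Agent.Work.MP_0fef71_al.ShortBasis

set_option autoImplicit false

namespace Pool.Agent.Work.MP_0fef71_al

open Module

/-- A finite group with a faithful complex representation of degree `d` is generated by at most
`5 ^ (2 d²)` elements. -/
theorem gens_of_rep {C : Type*} [Group C] [Finite C] {n : Type*} [Fintype n] [DecidableEq n]
    (ρ : C →* Matrix n n ℂ) (hρ : Function.Injective ρ) :
    ∃ S : Finset C, S.card ≤ 5 ^ (2 * (Fintype.card n) ^ 2) ∧
      Subgroup.closure (S : Set C) = ⊤ := by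
  classical
  have := Fintype.ofFinite C
  let Φ : Matrix n n ℂ →ₗ[ℝ] (C → n → n → ℂ) :=
    { toFun := fun M c i j => (ρ c * M) i j
      map_add' := by
        intro M N
        funext c i j
        rw [mul_add]; rfl
      map_smul' := by
        intro t M
        funext c i j
        simp only [RingHom.id_apply, Pi.smul_apply]
        rw [Matrix.mul_smul]; rfl }
  let E := LinearMap.range Φ
  have hfin : finrank ℝ E ≤ 2 * (Fintype.card n) ^ 2 := by
    refine (LinearMap.finrank_range_le Φ).trans ?_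
    have h1 : finrank ℝ (Matrix n n ℂ) = Fintype.card n * Fintype.card n * finrank ℝ ℂ :=
      Module.finrank_matrix ℝ ℂ n n
    rw [h1, Complex.finrank_real_complex]
    apply le_of_eq
    ring
  let φ : C → E := fun a => ⟨Φ (ρ a), ⟨ρ a, rfl⟩⟩
  have hφ : Function.Injective φ := by
    intro a b h
    apply hρ
    have h1 : Φ (ρ a) = Φ (ρ b) := congrArg Subtype.val h
    have h2 := congrFun h1 1
    ext i j
    have h3 := congrFun (congrFun h2 i) j
    change (ρ 1 * ρ a) i j = (ρ 1 * ρ b) i j at h3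
    rwa [map_one, one_mul, one_mul] at h3
  have hinv : ∀ c a b, ‖φ (c * a) - φ (c * b)‖ = ‖φ a - φ b‖ := by
    intro c a b
    have e1 : ∀ a b, ‖φ a - φ b‖ = ‖Φ (ρ a) - Φ (ρ b)‖ := fun a b => rfl
    have e2 : ∀ a b, ∀ x, (Φ (ρ a) - Φ (ρ b)) x = fun i j => (ρ (x * a) - ρ (x * b)) i j := by
      intro a b x
      funext i j
      change (ρ x * ρ a) i j - (ρ x * ρ b) i j = _
      rw [map_mul, map_mul]; rfl
    rw [e1, e1]
    apply le_antisymm
    · rw [pi_norm_le_iff_of_nonneg (norm_nonneg _)]
      intro x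
      have : (Φ (ρ (c * a)) - Φ (ρ (c * b))) x = (Φ (ρ a) - Φ (ρ b)) (x * c) := by
        rw [e2, e2, mul_assoc, mul_assoc]
      rw [this]
      exact norm_le_pi_norm _ _
    · rw [pi_norm_le_iff_of_nonneg (norm_nonneg _)]
      intro x
      have : (Φ (ρ a) - Φ (ρ b)) x = (Φ (ρ (c * a)) - Φ (ρ (c * b))) (x * c⁻¹) := by
        rw [e2, e2]
        simp only [mul_assoc, inv_mul_cancel_left]
      rw [this]
      exact norm_le_pi_norm _ _
  obtain ⟨S, hS, hS'⟩ := short_basis φ hφ hinv
  exact ⟨S, hS.trans (Nat.pow_le_pow_right (by norm_num) hfin), hS'⟩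

end Pool.Agent.Work.MP_0fef71_al
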