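import Mathlib
import Pool.Agent.Work.MP_0fef71_al.Lift
import Pool.Agent.Work.MP_0fef71_al.RepGens

set_option autoImplicit false

namespace Pool.Agent.Work.MP_0fef71_al

section

variable {n : Type*} [Fintype n] [DecidableEq n] (p : ℕ) [hp : Fact p.Prime]

/-- The product of all `ℤ / p ^ (k + 1)`. -/
abbrev RR : Type := ∀ k : ℕ, ZMod (p ^ (k + 1))

theorem RR_unit_of_not_dvd (m : ℕ) (hm : ¬ p ∣ m) : IsUnit (m : RR p) := by
  rw [Pi.isUnit_iff]
  intro k
  have : ((m : RR p) k) = (m : ZMod (p ^ (k + 1))) := rfl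
  rw [this, ZMod.isUnit_iff_coprime]
  exact (Nat.Coprime.pow_left _ ((Nat.Prime.coprime_iff_not_dvd hp.out).2 hm)).symm

theorem RR_p_not_nilpotent (m : ℕ) : (p : RR p) ^ m ≠ 0 := by
  intro h
  have h1 := congrFun h m
  have h2 : ((p : ZMod (p ^ (m + 1))) ^ m) = 0 := h1
  rw [← Nat.cast_pow, ZMod.natCast_eq_zero_iff] at h2
  have h3 := Nat.le_of_dvd (pow_pos hp.out.pos m) h2
  have h4 := Nat.pow_lt_pow_right hp.out.one_lt (Nat.lt_succ_self m)
  exact absurd h3 (not_le.2 h4)

/-- There is a ring homomorphism from `RR p` to a field of characteristic zero. -/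
theorem exists_field : ∃ (L : Type) (_ : Field L) (_ : CharZero L), Nonempty (RR p →+* L) := by
  have hdisj : Disjoint ((⊥ : Ideal (RR p)) : Set (RR p)) (Submonoid.powers (p : RR p)) := by
    rw [Set.disjoint_left]
    rintro x hx ⟨m, hm⟩
    have hx' : x = 0 := by simpa using hx
    exact RR_p_not_nilpotent p m (hm.trans hx')
  obtain ⟨P, hP, -, hPd⟩ := Ideal.exists_le_prime_disjoint ⊥ _ hdisj
  have hpP : (p : RR p) ∉ P := fun h => Set.disjoint_left.1 hPd h (Submonoid.mem_powers _)
  have hcast : ∀ m : ℕ, m ≠ 0 → (m : RR p) ∉ P := by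
    intro m
    induction m using Nat.strong_induction_on with
    | _ m ih =>
      intro hm hmem
      by_cases hd : p ∣ m
      · obtain ⟨c, rfl⟩ := hd
        have hc : c ≠ 0 := by rintro rfl; simp at hm
        rw [Nat.cast_mul] at hmem
        rcases hP.mem_or_mem hmem with h | h
        · exact hpP h
        · refine ih c ?_ hc h
          have := hp.out.one_lt
          have hc' : 0 < c := Nat.pos_of_ne_zero hc
          nlinarith
      · exact hP.ne_top (Ideal.eq_top_of_isUnit_mem P hmem (RR_unit_of_not_dvd p m hd))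
  have : P.IsPrime := hP
  refine ⟨FractionRing (RR p ⧸ P), inferInstance, ?_,
    ⟨(algebraMap (RR p ⧸ P) (FractionRing (RR p ⧸ P))).comp (Ideal.Quotient.mk P)⟩⟩
  refine charZero_of_inj_zero ?_
  intro m hm
  by_contra hm0
  apply hcast m hm0
  rw [← Ideal.Quotient.eq_zero_iff_mem, map_natCast]
  have h1 : algebraMap (RR p ⧸ P) (FractionRing (RR p ⧸ P)) (m : RR p ⧸ P) = 0 := by
    rw [map_natCast]; exact hm
  exact (FaithfulSMul.algebraMap_injective (RR p ⧸ P) (FractionRing (RR p ⧸ P)))
    (h1.trans (map_zero _).symm)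

/-- A faithful representation in characteristic `p` of a finite group of order prime to `p` lifts
to a faithful representation over a field of characteristic zero. -/
theorem exists_char_zero_rep {C : Type*} [Group C] [Finite C] (hC : (Nat.card C).Coprime p)
    (ρ : C →* (Matrix n n (ZMod p))ˣ) (hρ : Function.Injective ρ) :
    ∃ (L : Type) (_ : Field L) (_ : CharZero L) (σ : C →* Matrix n n L),
      Function.Injective σ := by
  obtain ⟨L, hL, hL0, ⟨φ⟩⟩ := exists_field p
  choose ρ' hρ' using fun k => exists_lift (n := n) p k hC ρ hρ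
  let σ0 : C →* Matrix n n (RR p) :=
    { toFun := fun c => Matrix.of (fun i j k => (ρ' k c : Matrix n n (ZMod (p ^ (k + 1)))) i j)
      map_one' := by
        ext i j k
        simp only [map_one, Units.val_one, Matrix.of_apply, Matrix.one_apply]
        split_ifs <;> rfl
      map_mul' := by
        intro x y
        ext i j k
        simp only [map_mul, Units.val_mul, Matrix.of_apply, Matrix.mul_apply, Finset.sum_apply,
          Pi.mul_apply] }
  have hσ0 : ∀ c i j k, σ0 c i j k = (ρ' k c : Matrix n n (ZMod (p ^ (k + 1)))) i j :=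
    fun _ _ _ _ => rfl
  refine ⟨L, hL, hL0, φ.mapMatrix.toMonoidHom.comp σ0, ?_⟩
  rw [injective_iff_map_eq_one]
  intro c hc
  by_contra hc1
  have h1 : (ρ c : Matrix n n (ZMod p)) ≠ 1 := by
    intro h
    exact hc1 (hρ (by rw [map_one]; exact Units.ext h))
  obtain ⟨i, j, hij⟩ : ∃ i j, (ρ c : Matrix n n (ZMod p)) i j ≠ (1 : Matrix n n (ZMod p)) i j := by
    by_contra hcon
    push Not at hcon
    exact h1 (Matrix.ext hcon)
  -- the entry of σ0 c - 1 is a unit
  have hunit : IsUnit (σ0 c i j - (1 : Matrix n n (RR p)) i j) := by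
    rw [Pi.isUnit_iff]
    intro k
    apply red_isUnit p k
    have e1 : (σ0 c i j - (1 : Matrix n n (RR p)) i j) k =
        (ρ' k c : Matrix n n (ZMod (p ^ (k + 1)))) i j -
          (1 : Matrix n n (ZMod (p ^ (k + 1)))) i j := by
      rw [Pi.sub_apply, hσ0]
      congr 1
      simp only [Matrix.one_apply]
      split_ifs <;> rfl
    rw [e1, map_sub]
    have e2 : ZMod.castHom (dvd_pow_self p (Nat.succ_ne_zero k)) (ZMod p)
        ((ρ' k c : Matrix n n (ZMod (p ^ (k + 1)))) i j) = (ρ c : Matrix n n (ZMod p)) i j := by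
      have := congrArg Units.val (hρ' k c)
      exact congrFun (congrFun this i) j
    have e3 : ZMod.castHom (dvd_pow_self p (Nat.succ_ne_zero k)) (ZMod p)
        ((1 : Matrix n n (ZMod (p ^ (k + 1)))) i j) = (1 : Matrix n n (ZMod p)) i j := by
      have := map_one (redM (n := n) p k)
      exact congrFun (congrFun this i) j
    rw [e2, e3]
    exact sub_ne_zero.2 hij
  have h2 : φ (σ0 c i j - (1 : Matrix n n (RR p)) i j) = 0 := by
    rw [map_sub]
    have e1 : φ (σ0 c i j) = (1 : Matrix n n L) i j := congrFun (congrFun hc i) j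
    have e2 : φ ((1 : Matrix n n (RR p)) i j) = (1 : Matrix n n L) i j := by
      have := map_one (φ.mapMatrix : Matrix n n (RR p) →+* Matrix n n L)
      exact congrFun (congrFun this i) j
    rw [e1, e2, sub_self]
  have h3 := hunit.map φ
  rw [h2] at h3
  exact not_isUnit_zero h3

end

theorem exists_hom_complex (B : Type) [CommRing B] [Nontrivial B] [Algebra ℚ B]
    [Algebra.FiniteType ℚ B] : Nonempty (B →+* ℂ) := by
  obtain ⟨m, hm⟩ := Ideal.exists_maximal B
  let _ : Field (B ⧸ m) := Ideal.Quotient.field m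
  have hFft : Algebra.FiniteType ℚ (B ⧸ m) := Algebra.FiniteType.of_surjective
    (Ideal.Quotient.mkₐ ℚ m) (Ideal.Quotient.mkₐ_surjective ℚ m)
  have hfin : Module.Finite ℚ (B ⧸ m) := finite_of_finite_type_of_isJacobsonRing ℚ (B ⧸ m)
  have halg : Algebra.IsAlgebraic ℚ (B ⧸ m) := Algebra.IsAlgebraic.of_finite ℚ (B ⧸ m)
  let ψ : (B ⧸ m) →ₐ[ℚ] ℂ := IsAlgClosed.lift
  exact ⟨(ψ : (B ⧸ m) →+* ℂ).comp (Ideal.Quotient.mk m)⟩

/-- A finite group with a faithful representation over a field of characteristic zero has a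
faithful complex representation of the same degree. -/
theorem exists_complex_rep {C : Type*} [Group C] [Finite C] {n : Type*} [Fintype n]
    [DecidableEq n] {L : Type} [Field L] [CharZero L] (σ : C →* Matrix n n L)
    (hσ : Function.Injective σ) :
    ∃ τ : C →* Matrix n n ℂ, Function.Injective τ := by
  classical
  have hne : ∀ c : C, c ≠ 1 → ∃ ij : n × n, σ c ij.1 ij.2 ≠ (1 : Matrix n n L) ij.1 ij.2 := by
    intro c hc
    by_contra hcon
    push Not at hcon
    exact hc (hσ (by rw [map_one]; ext i j; exact hcon (i, j)))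
  -- finitely generated subalgebra
  let T : Set L := (Set.range fun x : C × n × n => σ x.1 x.2.1 x.2.2) ∪
    (Set.range fun x : C × n × n => (σ x.1 x.2.1 x.2.2 - (1 : Matrix n n L) x.2.1 x.2.2)⁻¹)
  have hT : T.Finite := (Set.finite_range _).union (Set.finite_range _)
  let B : Subalgebra ℚ L := Algebra.adjoin ℚ T
  have hBft : Algebra.FiniteType ℚ B := by
    rw [← Subalgebra.fg_iff_finiteType]
    exact ⟨hT.toFinset, by rw [Set.Finite.coe_toFinset]⟩
  obtain ⟨θ⟩ := exists_hom_complex B
  have hmem : ∀ c i j, σ c i j ∈ B := fun c i j =>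
    Algebra.subset_adjoin (Or.inl ⟨(c, i, j), rfl⟩)
  have hmem' : ∀ c i j, (σ c i j - (1 : Matrix n n L) i j)⁻¹ ∈ B := fun c i j =>
    Algebra.subset_adjoin (Or.inr ⟨(c, i, j), rfl⟩)
  let σB : C →* Matrix n n B :=
    { toFun := fun c => Matrix.of (fun i j => (⟨σ c i j, hmem c i j⟩ : B))
      map_one' := by
        ext i j
        simp only [map_one, Matrix.of_apply, Matrix.one_apply]
        split_ifs <;> rfl
      map_mul' := by
        intro x y
        ext i j
        simp only [map_mul, Matrix.of_apply, Matrix.mul_apply]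
        push_cast
        rfl }
  have hσB : ∀ c i j, ((σB c i j : B) : L) = σ c i j := fun _ _ _ => rfl
  refine ⟨θ.mapMatrix.toMonoidHom.comp σB, ?_⟩
  rw [injective_iff_map_eq_one]
  intro c hc
  by_contra hc1
  obtain ⟨⟨i, j⟩, hij⟩ := hne c hc1
  have hu : (σB c i j - (1 : Matrix n n B) i j) * ⟨_, hmem' c i j⟩ = 1 := by
    apply Subtype.ext
    have e1 : (((1 : Matrix n n B) i j : B) : L) = (1 : Matrix n n L) i j := by
      simp only [Matrix.one_apply]
      split_ifs <;> rfl
    push_cast
    rw [e1, hσB]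
    exact mul_inv_cancel₀ (sub_ne_zero.2 hij)
  have h1 := congrArg θ hu
  rw [map_mul, map_sub, map_one] at h1
  have e1 : θ (σB c i j) = (1 : Matrix n n ℂ) i j := congrFun (congrFun hc i) j
  have e2 : θ ((1 : Matrix n n B) i j) = (1 : Matrix n n ℂ) i j := by
    have := map_one (θ.mapMatrix : Matrix n n B →+* Matrix n n ℂ)
    exact congrFun (congrFun this i) j
  rw [e1, e2, sub_self, zero_mul] at h1
  exact zero_ne_one h1

/-- A subgroup of `GL_n(F_p)` of order prime to `p` has boundedly many generators. -/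
theorem gens_of_coprime {n : Type*} [Fintype n] [DecidableEq n] (p : ℕ) [hp : Fact p.Prime]
    {C : Type*} [Group C] [Finite C] (hC : (Nat.card C).Coprime p)
    (ρ : C →* (Matrix n n (ZMod p))ˣ) (hρ : Function.Injective ρ) :
    ∃ S : Finset C, S.card ≤ 5 ^ (2 * (Fintype.card n) ^ 2) ∧
      Subgroup.closure (S : Set C) = ⊤ := by
  obtain ⟨L, hL, hL0, σ, hσ⟩ := exists_char_zero_rep p hC ρ hρ
  obtain ⟨τ, hτ⟩ := exists_complex_rep σ hσ
  exact gens_of_rep τ hτ

end Pool.Agent.Work.MP_0fef71_al
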