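import Mathlib
import Pool.Agent.Work.MP_0fef71_al.GroupGen
import Pool.Agent.Work.MP_0fef71_al.CharZero

set_option autoImplicit false

namespace Pool.Agent.Work.MP_0fef71_al

theorem card_GL_le {n : Type*} [Fintype n] [DecidableEq n] (p : ℕ) [hp : Fact p.Prime] :
    Nat.card (Matrix n n (ZMod p))ˣ ≤ p ^ ((Fintype.card n) ^ 2) := by
  have h1 : Nat.card (Matrix n n (ZMod p))ˣ ≤ Nat.card (Matrix n n (ZMod p)) :=
    Nat.card_le_card_of_injective _ Units.val_injective
  have h2 : Nat.card (Matrix n n (ZMod p)) = p ^ ((Fintype.card n) ^ 2) := by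
    have : Nat.card (Matrix n n (ZMod p)) = Nat.card (n → n → ZMod p) := rfl
    rw [this, Nat.card_fun, Nat.card_fun, Nat.card_zmod, Nat.card_eq_fintype_card, ← pow_mul, sq]
  rwa [h2] at h1

theorem RB_GL {n : Type*} [Fintype n] [DecidableEq n] (p : ℕ) [hp : Fact p.Prime] :
    RB (Matrix n n (ZMod p))ˣ
      ((Fintype.card n) ^ 2 + 1 + 5 ^ (2 * (Fintype.card n) ^ 2)) := by
  refine RB_of_coprime p _ _ ?_ ?_
  · refine (card_GL_le (n := n) p).trans_lt ?_
    exact Nat.pow_lt_pow_right hp.out.one_lt (Nat.lt_succ_self _)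
  · intro C hC
    exact gens_of_coprime p hC C.subtype C.subtype_injective

/-- Rank and order of `GL_3(M_k(F_p))`. -/
theorem RB_GL3 {n : Type*} [Fintype n] [DecidableEq n] (p : ℕ) [hp : Fact p.Prime] :
    RB (Matrix (Fin 3) (Fin 3) (Matrix n n (ZMod p)))ˣ
      ((3 * Fintype.card n) ^ 2 + 1 + 5 ^ (2 * (3 * Fintype.card n) ^ 2)) := by
  have h := RB_GL (n := Fin 3 × n) p
  rw [Fintype.card_prod, Fintype.card_fin] at h
  exact h.of_injective (Units.mapEquiv
    (Matrix.compRingEquiv (Fin 3) n (ZMod p)).toMulEquiv).toMonoidHom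
    (MulEquiv.injective _)

theorem card_GL3_le {n : Type*} [Fintype n] [DecidableEq n] (p : ℕ) [hp : Fact p.Prime] :
    Nat.card (Matrix (Fin 3) (Fin 3) (Matrix n n (ZMod p)))ˣ ≤ p ^ ((3 * Fintype.card n) ^ 2) := by
  have h := card_GL_le (n := Fin 3 × n) p
  rw [Fintype.card_prod, Fintype.card_fin] at h
  rwa [Nat.card_congr (Units.mapEquiv
    (Matrix.compRingEquiv (Fin 3) n (ZMod p)).toMulEquiv).toEquiv]

end Pool.Agent.Work.MP_0fef71_al
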