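import Mathlib
import Pool.Agent.Work.MP_0fef71_al.Level
import Pool.Agent.Work.MP_0fef71_al.RankGL

set_option autoImplicit false

namespace Pool.Agent.Work.MP_0fef71_al

open Matrix

/-- Subgroups of index at most `n`. -/
def FI (G : Type*) [Group G] (n : ℕ) : Set (Subgroup G) := {H | H.index ≠ 0 ∧ H.index ≤ n}

variable (P : ℕ → ℕ)

/-- projection to the first coordinates -/
def prj (m : ℕ) : GG P →* (∀ j : Fin (m + 1), (Matrix (Fin 3) (Fin 3) (AA P j))ˣ) where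
  toFun g j := g.1 j
  map_one' := rfl
  map_mul' _ _ := rfl

theorem FI_injOn [∀ i, Fact (P i).Prime] (m n : ℕ) (hm : ∀ j, m < j → n < P j) :
    Set.InjOn (fun K : Subgroup (GG P) => K.map (prj P m)) (FI (GG P) n) := by
  have key : ∀ K ∈ FI (GG P) n, (K.map (prj P m)).comap (prj P m) = K := by
    intro K hK
    rw [Subgroup.comap_map_eq, sup_eq_left]
    intro g hg
    refine mem_of_trivial P K hK.1 m (fun j hj => hK.2.trans_lt (hm j hj)) g ?_
    intro i hi
    exact congrFun (MonoidHom.mem_ker.1 hg) ⟨i, Nat.lt_succ_of_le hi⟩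
  intro K hK L hL h
  rw [← key K hK, ← key L hL]
  exact congrArg (fun M => M.comap (prj P m)) h

instance finG [∀ i, Fact (P i).Prime] (j : ℕ) : Finite (Matrix (Fin 3) (Fin 3) (AA P j))ˣ := by
  have : Finite (Matrix (Fin 3) (Fin 3) (AA P j)) := inferInstance
  infer_instance

instance finSub {G : Type*} [Group G] [Finite G] : Finite (Subgroup G) :=
  Finite.of_injective (fun H : Subgroup G => (H : Set G)) SetLike.coe_injective

theorem FI_finite [∀ i, Fact (P i).Prime] (m n : ℕ) (hm : ∀ j, m < j → n < P j) :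
    (FI (GG P) n).Finite :=
  Set.Finite.of_injOn (Set.mapsTo_univ _ _) (FI_injOn P m n hm) Set.finite_univ

/-- exponents -/
def c1 (m : ℕ) : ℕ := ∑ j : Fin (m + 1), (3 * 2 ^ (j : ℕ)) ^ 2

def c2 (m : ℕ) : ℕ :=
  ∑ j : Fin (m + 1), ((3 * 2 ^ (j : ℕ)) ^ 2 + 1 + 5 ^ (2 * (3 * 2 ^ (j : ℕ)) ^ 2))

theorem FI_card_le [∀ i, Fact (P i).Prime] (hP : Monotone P) (m n : ℕ)
    (hm : ∀ j, m < j → n < P j) : Nat.card (FI (GG P) n) ≤ (P m) ^ (c1 m * c2 m) := by
  have h1 : Nat.card (FI (GG P) n) ≤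
      Nat.card (Subgroup (∀ j : Fin (m + 1), (Matrix (Fin 3) (Fin 3) (AA P j))ˣ)) := by
    refine Nat.card_le_card_of_injective
      (fun K : FI (GG P) n => (K : Subgroup (GG P)).map (prj P m)) ?_
    intro K L h
    exact Subtype.ext (FI_injOn P m n hm K.2 L.2 h)
  have h2 : RB (∀ j : Fin (m + 1), (Matrix (Fin 3) (Fin 3) (AA P j))ˣ) (c2 m) := by
    refine RB.pi (fun j => ?_)
    have := RB_GL3 (n := ZMod (2 ^ (j : ℕ))) (P j)
    rwa [ZMod.card] at this
  have h3 := h2.count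
  have h4 : Nat.card (∀ j : Fin (m + 1), (Matrix (Fin 3) (Fin 3) (AA P j))ˣ) ≤
      (P m) ^ (c1 m) := by
    rw [Nat.card_pi, c1, ← Finset.prod_pow_eq_pow_sum]
    refine Finset.prod_le_prod' (fun j _ => ?_)
    have := card_GL3_le (n := ZMod (2 ^ (j : ℕ))) (P j)
    rw [ZMod.card] at this
    refine this.trans (Nat.pow_le_pow_left (hP (Nat.lt_succ_iff.1 j.2)) _)
  calc Nat.card (FI (GG P) n) ≤ _ := h1
    _ ≤ _ := h3
    _ ≤ ((P m) ^ (c1 m)) ^ (c2 m) := Nat.pow_le_pow_left h4 _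
    _ = _ := by rw [← pow_mul]

end Pool.Agent.Work.MP_0fef71_al
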