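import Mathlib
import Pool.Agent.Work.MP_0fef71_al.Upper

set_option autoImplicit false

namespace Pool.Agent.Work.MP_0fef71_al

open Matrix

variable (P : ℕ → ℕ) [hP : ∀ i, Fact (P i).Prime] (i : ℕ)

/-- The image of the ring in the `i`-th coordinate. -/
def VV : Submodule (ZMod (P i)) (AA P i) :=
  AddSubgroup.toZModSubmodule (P i)
    ((Rg P).map (Pi.evalRingHom (AA P) i)).toAddSubgroup

theorem mem_VV {x : AA P i} : x ∈ VV P i ↔ ∃ r : Rg P, (r : ∀ i, AA P i) i = x := by
  constructor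
  · intro h
    obtain ⟨r, hr, hrx⟩ := h
    exact ⟨⟨r, hr⟩, hrx⟩
  · rintro ⟨r, rfl⟩
    exact ⟨r.1, r.2, rfl⟩

/-- The projection to the `i`-th coordinate. -/
def pr : GG P →* (Matrix (Fin 3) (Fin 3) (AA P i))ˣ where
  toFun g := g.1 i
  map_one' := rfl
  map_mul' _ _ := rfl

theorem card_range_le : Nat.card (pr P i).range ≤ (Nat.card (VV P i)) ^ 9 := by
  have hmem : ∀ g ∈ (pr P i).range, ∀ b c : Fin 3,
      ((g : (Matrix (Fin 3) (Fin 3) (AA P i))ˣ) : Matrix (Fin 3) (Fin 3) (AA P i)) b c ∈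
        VV P i := by
    rintro _ ⟨g, rfl⟩ b c
    exact (mem_VV P i).2 ⟨⟨_, entries_mem (XX P) (one_mem_XX P) g.1 g.2 b c⟩, rfl⟩
  let f : (pr P i).range → (Fin 3 → Fin 3 → VV P i) := fun g b c => ⟨_, hmem g.1 g.2 b c⟩
  have hf : Function.Injective f := by
    intro g h hgh
    apply Subtype.ext
    apply Units.ext
    refine Matrix.ext fun b c => ?_
    exact congrArg Subtype.val (congrFun (congrFun hgh b) c)
  have h1 := Nat.card_le_card_of_injective f hf
  rw [Nat.card_fun, Nat.card_fun, Nat.card_eq_fintype_card (α := Fin 3), Fintype.card_fin,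
    ← pow_mul] at h1
  exact h1

theorem SS_mem_VV (N : ℤ) : Sh P i N ∈ VV P i := (mem_VV P i).2 ⟨sR P N, rfl⟩

theorem finrank_ge : 2 ^ i ≤ Module.finrank (ZMod (P i)) (VV P i) := by
  have hp : (P i).Prime := (hP i).out
  have hsurj : Function.Surjective
      (fun (v : VV P i) (x : ZMod (2 ^ i)) => (v : AA P i) x 0) := by
    intro c
    refine ⟨⟨∑ y : ZMod (2 ^ i), c y • Sh P i (y.val : ℤ), ?_⟩, ?_⟩
    · exact Submodule.sum_mem _ fun y _ => Submodule.smul_mem _ _ (SS_mem_VV P i _)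
    · funext x
      simp only
      rw [Matrix.sum_apply, Finset.sum_eq_single x]
      · rw [Matrix.smul_apply, Sh, Matrix.of_apply, if_pos, smul_eq_mul, mul_one]
        rw [zero_add, Int.cast_natCast, ZMod.natCast_val, ZMod.cast_id', id]
      · intro y _ hy
        rw [Matrix.smul_apply, Sh, Matrix.of_apply, if_neg, smul_zero]
        rw [zero_add, Int.cast_natCast, ZMod.natCast_val, ZMod.cast_id', id]
        exact fun h => hy h.symm
      · intro h; exact absurd (Finset.mem_univ _) h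
  have h1 := Nat.card_le_card_of_surjective _ hsurj
  rw [Nat.card_fun, Nat.card_zmod, Nat.card_zmod,
    Module.natCard_eq_pow_finrank (K := ZMod (P i)), Nat.card_zmod] at h1
  exact (Nat.pow_le_pow_iff_right hp.one_lt).1 h1

theorem card_VV : Nat.card (VV P i) = (P i) ^ (Module.finrank (ZMod (P i)) (VV P i)) := by
  rw [Module.natCard_eq_pow_finrank (K := ZMod (P i)), Nat.card_zmod]

theorem card_End : Nat.card (VV P i →ₗ[ZMod (P i)] VV P i) =
    (P i) ^ ((Module.finrank (ZMod (P i)) (VV P i)) ^ 2) := by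
  rw [Module.natCard_eq_pow_finrank (K := ZMod (P i)), Nat.card_zmod, Module.finrank_linearMap, sq]

section
variable {B : Type*} [Ring B]

theorem h01 : (0 : Fin 3) ≠ 1 := by decide
theorem h02 : (0 : Fin 3) ≠ 2 := by decide

theorem E_E_val (x y : B) :
    ((E 0 1 h01 x * E 0 2 h02 y : (Matrix (Fin 3) (Fin 3) B)ˣ) : Matrix (Fin 3) (Fin 3) B) =
      1 + single 0 1 x + single 0 2 y := by
  rw [Units.val_mul, E_val, E_val, mul_add, mul_one, add_mul, one_mul,
    single_mul_single_of_ne x 0 1 0 h01.symm y, add_zero]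

theorem E_E_val' (x y : B) :
    ((E 0 2 h02 y * E 0 1 h01 x : (Matrix (Fin 3) (Fin 3) B)ˣ) : Matrix (Fin 3) (Fin 3) B) =
      1 + single 0 1 x + single 0 2 y := by
  rw [Units.val_mul, E_val, E_val, mul_add, mul_one, add_mul, one_mul,
    single_mul_single_of_ne y 0 2 0 h02.symm x, add_zero]
  abel

theorem E_E_swap (x y : B) : E 0 1 h01 x * E 0 2 h02 y = E 0 2 h02 y * E 0 1 h01 x :=
  Units.ext ((E_E_val x y).trans (E_E_val' x y).symm)

theorem E_E_inj {x y x' y' : B} (h : E 0 1 h01 x * E 0 2 h02 y = E 0 1 h01 x' * E 0 2 h02 y') :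
    x = x' ∧ y = y' := by
  have h1 := congrArg Units.val h
  rw [E_E_val, E_E_val] at h1
  have h2 := congrFun (congrFun h1 0) 1
  have h3 := congrFun (congrFun h1 0) 2
  simp [Matrix.add_apply] at h2 h3
  exact ⟨h2, h3⟩

end

/-- The homomorphism attached to `λ`. -/
def phi (l : VV P i →ₗ[ZMod (P i)] VV P i) :
    Multiplicative (VV P i) →* (Matrix (Fin 3) (Fin 3) (AA P i))ˣ where
  toFun v := E 0 1 h01 (v.toAdd : AA P i) * E 0 2 h02 (l v.toAdd : AA P i)
  map_one' := by
    rw [toAdd_one, map_zero, ZeroMemClass.coe_zero, E_zero, E_zero, one_mul]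
  map_mul' v w := by
    rw [toAdd_mul, map_add, Submodule.coe_add, Submodule.coe_add, E_add, E_add]
    have := E_E_swap (w.toAdd : AA P i) (l v.toAdd : AA P i)
    calc _ = E 0 1 h01 (v.toAdd : AA P i) * (E 0 1 h01 (w.toAdd : AA P i) *
          E 0 2 h02 (l v.toAdd : AA P i)) * E 0 2 h02 (l w.toAdd : AA P i) := by
          simp only [mul_assoc]
      _ = _ := by rw [this]; simp only [mul_assoc]

/-- The subgroup attached to `λ`. -/
def Kl (l : VV P i →ₗ[ZMod (P i)] VV P i) : Subgroup (GG P) := (phi P i l).range.comap (pr P i)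

theorem Kl_mem_FI (l : VV P i →ₗ[ZMod (P i)] VV P i) :
    Kl P i l ∈ FI (GG P) (Nat.card (pr P i).range) := by
  have h1 : (Kl P i l).index = (phi P i l).range.relIndex (pr P i).range :=
    Subgroup.index_comap _ _
  have h2 := Subgroup.relIndex_dvd_card (phi P i l).range (pr P i).range
  have h3 : 0 < Nat.card (pr P i).range := Nat.card_pos
  constructor
  · rw [h1]
    intro h
    rw [h] at h2
    have := Nat.eq_zero_of_zero_dvd h2
    omega
  · rw [h1]
    exact Nat.le_of_dvd h3 h2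

theorem Kl_injective : Function.Injective (Kl P i) := by
  intro l l' hll
  apply LinearMap.ext
  intro v
  obtain ⟨r, hr⟩ := (mem_VV P i).1 v.2
  obtain ⟨s, hs⟩ := (mem_VV P i).1 (l v).2
  have h1 : EG (XX P) (one_mem_XX P) 0 1 h01 r * EG (XX P) (one_mem_XX P) 0 2 h02 s ∈
      Kl P i l := by
    refine ⟨Multiplicative.ofAdd v, ?_⟩
    have e1 : phi P i l (Multiplicative.ofAdd v) = E 0 1 h01 (v : AA P i) *
      E 0 2 h02 (l v : AA P i) := rfl
    rw [e1, ← hr, ← hs]
    rfl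
  rw [hll] at h1
  obtain ⟨w, hw⟩ := h1
  have e1 : phi P i l' w = E 0 1 h01 (w.toAdd : AA P i) *
      E 0 2 h02 (l' w.toAdd : AA P i) := rfl
  have e2 : pr P i (EG (XX P) (one_mem_XX P) 0 1 h01 r * EG (XX P) (one_mem_XX P) 0 2 h02 s) =
      E 0 1 h01 (v : AA P i) * E 0 2 h02 (l v : AA P i) := by
    rw [← hr, ← hs]; rfl
  rw [e1, e2] at hw
  obtain ⟨h3, h4⟩ := E_E_inj hw
  have h5 : w.toAdd = v := Subtype.ext h3
  rw [h5] at h4
  exact (Subtype.ext h4).symm

theorem FI_mono {G : Type*} [Group G] {m n : ℕ} (h : m ≤ n) : FI G m ⊆ FI G n :=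
  fun _ hH => ⟨hH.1, hH.2.trans h⟩

theorem lower (hfin : ∀ n, (FI (GG P) n).Finite) :
    ∃ d : ℕ, 2 ^ i ≤ d ∧ (P i) ^ (d ^ 2) ≤ Nat.card (FI (GG P) ((P i) ^ (9 * d))) := by
  refine ⟨Module.finrank (ZMod (P i)) (VV P i), finrank_ge P i, ?_⟩
  rw [← card_End]
  have hle : Nat.card (pr P i).range ≤ (P i) ^ (9 * Module.finrank (ZMod (P i)) (VV P i)) := by
    have := card_range_le P i
    rwa [card_VV, ← pow_mul, mul_comm] at this
  have := (hfin ((P i) ^ (9 * Module.finrank (ZMod (P i)) (VV P i)))).to_subtype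
  refine Nat.card_le_card_of_injective
    (fun l => (⟨Kl P i l, FI_mono hle (Kl_mem_FI P i l)⟩ :
      FI (GG P) ((P i) ^ (9 * Module.finrank (ZMod (P i)) (VV P i))))) ?_
  intro l l' h
  exact Kl_injective P i (congrArg Subtype.val h)

end Pool.Agent.Work.MP_0fef71_al
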