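import Mathlib
import Pool.Agent.Work.MP_0fef71_al.Lower

set_option autoImplicit false

namespace Pool.Agent.Work.MP_0fef71_al

open Filter

/-- A fast sequence of primes. -/
theorem exists_primes (T : ℕ → ℕ) : ∃ P : ℕ → ℕ, StrictMono P ∧ (∀ i, (P i).Prime) ∧
    ∀ i, T i ≤ P i := by
  let T' : ℕ → ℕ := fun m => m + ∑ j ∈ Finset.range (m + 1), T j
  have hT' : StrictMono T' := by
    apply strictMono_nat_of_lt_succ
    intro n
    simp only [T']
    rw [Finset.sum_range_succ (n := n + 1)]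
    omega
  have hT'' : ∀ m, T m ≤ T' m := by
    intro m
    simp only [T']
    have : T m ≤ ∑ j ∈ Finset.range (m + 1), T j :=
      Finset.single_le_sum (f := T) (fun _ _ => Nat.zero_le _) (Finset.self_mem_range_succ m)
    omega
  have hn : StrictMono (Nat.nth Nat.Prime) := Nat.nth_strictMono Nat.infinite_setOfPred_prime
  refine ⟨fun m => Nat.nth Nat.Prime (T' m), hn.comp hT', ?_, ?_⟩
  · intro i; exact Nat.prime_nth_prime _
  · intro i; exact (hT'' i).trans (hn.le_apply)

theorem exists_threshold (g : ℕ → ℝ) (hg : ∀ n, 0 < g n)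
    (hg' : Tendsto (fun n : ℕ => Real.log (g n) / Real.log n) atTop atTop) (C : ℕ) :
    ∃ T : ℕ, ∀ n, T ≤ n → ((n ^ C : ℕ) : ℝ) < g n := by
  have h1 := (hg'.eventually_gt_atTop (C : ℝ)).and (eventually_ge_atTop 2)
  obtain ⟨T, hT⟩ := eventually_atTop.1 h1
  refine ⟨T, fun n hn => ?_⟩
  obtain ⟨h2, h3⟩ := hT n hn
  have hn1 : (1 : ℝ) < n := by exact_mod_cast (by omega : 1 < n)
  have hlog : 0 < Real.log n := Real.log_pos hn1
  rw [lt_div_iff₀ hlog] at h2
  rw [← Real.log_lt_log_iff (by positivity) (hg n)]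
  push_cast
  rw [Real.log_pow]
  exact h2

theorem exists_block (P : ℕ → ℕ) (hP : StrictMono P) (n : ℕ) (hn : P 0 ≤ n) :
    ∃ m, P m ≤ n ∧ ∀ j, m < j → n < P j := by
  classical
  have hex : ∃ k, n < P k := ⟨n + 1, (Nat.lt_succ_self n).trans_le hP.le_apply⟩
  have h1 := Nat.find_spec hex
  have h0 : Nat.find hex ≠ 0 := by
    intro h; rw [h] at h1; omega
  obtain ⟨m, hm⟩ := Nat.exists_eq_succ_of_ne_zero h0
  refine ⟨m, ?_, ?_⟩
  · have := Nat.find_min hex (m := m) (by omega)
    omega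
  · intro j hj
    exact h1.trans_le (hP.monotone (by omega))

theorem main (g : ℕ → ℝ) (hg : ∀ n, 0 < g n)
    (hg' : Tendsto (fun n : ℕ => Real.log (g n) / Real.log n) atTop atTop) :
    ∃ (P : ℕ → ℕ) (_ : ∀ i, Fact (P i).Prime),
      (∀ n, (FI (GG P) n).Finite) ∧
      (∀ c : ℝ, ∃ᶠ n : ℕ in atTop, (n : ℝ) ^ c < (Nat.card (FI (GG P) n) : ℝ)) ∧
      ∀ᶠ n : ℕ in atTop, (Nat.card (FI (GG P) n) : ℝ) < g n := by
  choose T hT using fun m => exists_threshold g hg hg' (c1 m * c2 m)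
  obtain ⟨P, hPm, hPp, hPT⟩ := exists_primes T
  have hF : ∀ i, Fact (P i).Prime := fun i => ⟨hPp i⟩
  have hfin : ∀ n, (FI (GG P) n).Finite := fun n =>
    FI_finite P n n (fun j hj => hj.trans_le hPm.le_apply)
  refine ⟨P, hF, hfin, ?_, ?_⟩
  · intro c
    rw [frequently_atTop]
    intro N
    obtain ⟨k, hk⟩ := exists_nat_gt (9 * c)
    set i := max k N with hi
    obtain ⟨d, hd, hd2⟩ := lower P i hfin
    have hid : i < 2 ^ i := Nat.lt_two_pow_self
    have hd0 : 0 < d := by omega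
    have hPi1 : 1 < P i := (hPp i).one_lt
    refine ⟨(P i) ^ (9 * d), ?_, ?_⟩
    · calc N ≤ i := le_max_right _ _
        _ ≤ P i := hPm.le_apply
        _ = (P i) ^ 1 := (pow_one _).symm
        _ ≤ (P i) ^ (9 * d) := Nat.pow_le_pow_right (by omega) (by omega)
    · have h1 : ((P i ^ (d ^ 2) : ℕ) : ℝ) ≤ (Nat.card (FI (GG P) ((P i) ^ (9 * d))) : ℝ) := by
        exact_mod_cast hd2
      refine lt_of_lt_of_le ?_ h1
      push_cast
      have hPr : (1 : ℝ) < (P i : ℝ) := by exact_mod_cast hPi1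
      rw [← Real.rpow_natCast (P i : ℝ) (9 * d), ← Real.rpow_natCast (P i : ℝ) (d ^ 2),
        ← Real.rpow_mul (by positivity)]
      apply Real.rpow_lt_rpow_of_exponent_lt hPr
      have hdr : (0 : ℝ) < d := by exact_mod_cast hd0
      have h9 : 9 * c < d := by
        have : (k : ℝ) ≤ d := by
          have : k ≤ d := by
            have := le_max_left k N
            omega
          exact_mod_cast this
        linarith
      push_cast
      nlinarith
  · rw [eventually_atTop]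
    refine ⟨P 0, fun n hn => ?_⟩
    obtain ⟨m, hm1, hm2⟩ := exists_block P hPm n hn
    have h1 := FI_card_le P hPm.monotone m n hm2
    have h2 : (P m) ^ (c1 m * c2 m) ≤ n ^ (c1 m * c2 m) := Nat.pow_le_pow_left hm1 _
    have h3 := hT m n ((hPT m).trans hm1)
    refine lt_of_le_of_lt ?_ h3
    exact_mod_cast h1.trans h2

end Pool.Agent.Work.MP_0fef71_al
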